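import Pool.Agent.Lib.MP_7d41f7_al.C.GS

/-! A smaller alternating section. -/

set_option autoImplicit false

namespace Pool.Agent.Lib.MP_7d41f7_al

open Subgroup

theorem cyc_aux1 {B : Finset ℕ} (hB : ∀ r ∈ B, 2 ≤ r) :
    ∑ r ∈ B, r ≤ ∏ r ∈ B, r ∧ (∑ r ∈ B, r = ∏ r ∈ B, r → ∃ r, B = {r}) := by
  induction B using Finset.induction_on_max with
  | empty => simp
  | insert a B h ih =>
  have ha : a ∉ B := fun e => (h a e).false
  rw [Finset.sum_insert ha, Finset.prod_insert ha]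
  rcases B.eq_empty_or_nonempty with rfl | ⟨b, hb⟩
  · simp
  have h1 := (ih fun r hr => hB r (Finset.mem_insert_of_mem hr)).1
  have h2 := hB b (Finset.mem_insert_of_mem hb)
  have h3 := h b hb
  have h4 : b ≤ ∑ r ∈ B, r := Finset.single_le_sum (f := id) (fun _ _ => Nat.zero_le _) hb
  constructor
  · nlinarith
  · intro e
    nlinarith

theorem cyc_aux2 (s : Multiset ℕ) (hs : ∀ c ∈ s, 2 ≤ c) (A : Finset ℕ) (hA : ∀ r ∈ A, r.Prime)
    (h : ∀ r ∈ A, ∃ c ∈ s, r ∣ c) : ∑ r ∈ A, r ≤ s.sum ∧ (s.sum ≤ ∑ r ∈ A, r → s = A.val) := by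
  induction s using Multiset.induction_on generalizing A with
  | empty =>
    obtain rfl : A = ∅ := Finset.eq_empty_of_forall_notMem fun r hr => by simpa using h r hr
    simp
  | cons c s ih =>
  have h0 := hs c (Multiset.mem_cons_self c s)
  obtain ⟨i1, i2⟩ := ih (fun d hd => hs d (Multiset.mem_cons_of_mem hd)) (A.filter (¬ · ∣ c))
    (fun r hr => hA r (Finset.mem_filter.1 hr).1) fun r hr => by
      obtain ⟨d, hd, e⟩ := h r (Finset.mem_filter.1 hr).1
      exact ⟨d, (Multiset.mem_cons.1 hd).resolve_left fun e' => (Finset.mem_filter.1 hr).2 (e' ▸ e), e⟩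
  obtain ⟨j1, j2⟩ := cyc_aux1 (B := A.filter (· ∣ c)) fun r hr =>
    (hA r (Finset.mem_filter.1 hr).1).two_le
  have j3 : ∏ r ∈ A.filter (· ∣ c), r ≤ c := Nat.le_of_dvd (by omega)
    (Finset.prod_primes_dvd c (fun r hr => (hA r (Finset.mem_filter.1 hr).1).prime)
      fun r hr => (Finset.mem_filter.1 hr).2)
  have j4 := Finset.sum_filter_add_sum_filter_not A (· ∣ c) fun r => r
  rw [Multiset.sum_cons]
  refine ⟨by omega, fun e => ?_⟩
  obtain ⟨r, hr⟩ := j2 (by omega)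
  have j5 : c = r := by
    rw [hr, Finset.sum_singleton] at j4
    rw [hr, Finset.prod_singleton] at j3
    omega
  subst j5
  rw [i2 (by omega), ← Multiset.singleton_add, ← Finset.singleton_val, ← hr,
    Finset.filter_val, Finset.filter_val, Multiset.filter_add_not]

theorem cyc_type {α : Type} [Fintype α] [DecidableEq α] (g : Equiv.Perm α) (A : Finset ℕ)
    (hA : ∀ r ∈ A, r.Prime) (h : ∏ r ∈ A, r ∣ orderOf g) :
    ∑ r ∈ A, r ≤ Fintype.card α ∧ (Fintype.card α ≤ ∑ r ∈ A, r → g.cycleType = A.val) := by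
  obtain ⟨h1, h2⟩ := cyc_aux2 g.cycleType (fun _ => g.two_le_of_mem_cycleType) A hA fun r hr =>
    (hA r hr).prime.exists_mem_multiset_dvd (((Finset.dvd_prod_of_mem _ hr).trans h).trans
      (g.lcm_cycleType ▸ Multiset.lcm_dvd.2 fun _ => Multiset.dvd_prod))
  exact ⟨h1.trans g.sum_cycleType_le, fun e => h2 (g.sum_cycleType_le.trans e)⟩

theorem cyc_sum {α : Type} [Fintype α] [DecidableEq α] (g : Equiv.Perm α) (A : Finset ℕ)
    (hA : ∀ r ∈ A, r.Prime) (h : ∏ r ∈ A, r ∣ orderOf g) : ∑ r ∈ A, r ≤ Fintype.card α :=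
  (cyc_type g A hA h).1

theorem alt_elt {m : ℕ} (A : Finset ℕ) (hA : ∀ r ∈ A, r.Prime ∧ r ≠ 2) (hs : ∑ r ∈ A, r ≤ m) :
    ∃ x : alternatingGroup (Fin m), orderOf x = ∏ r ∈ A, r := by
  obtain ⟨g, hg⟩ := (Equiv.Perm.exists_with_cycleType_iff (Fin m) (m := A.val)).2
    ⟨by simpa using hs, fun r hr => (hA r hr).1.two_le⟩
  refine ⟨⟨g, ?_⟩, ?_⟩
  · rw [Equiv.Perm.mem_alternatingGroup, Equiv.Perm.sign_of_cycleType', hg]
    refine Multiset.prod_eq_one fun x hx => ?_
    obtain ⟨r, hr, rfl⟩ := Multiset.mem_map.1 hx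
    rw [((hA r hr).1.odd_of_ne_two (hA r hr).2).neg_one_pow, neg_neg]
  · rw [orderOf_mk, ← g.lcm_cycleType, hg]
    exact Nat.dvd_antisymm (Multiset.lcm_dvd.2 fun r hr => Finset.dvd_prod_of_mem _ hr)
      (Finset.prod_primes_dvd _ (fun r hr => (hA r hr).1.prime) fun r hr => Multiset.dvd_lcm hr)

theorem alt_two {m : ℕ} (x : alternatingGroup (Fin m)) : ∃ x₁ : alternatingGroup (Fin m),
    ∀ y : alternatingGroup (Fin m), y.1.cycleType = x.1.cycleType → IsConj x y ∨ IsConj x₁ y := by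
  by_cases h : ∃ t : Equiv.Perm (Fin m), t ∉ alternatingGroup (Fin m)
  · obtain ⟨t, ht⟩ := h
    refine ⟨⟨t * x * t⁻¹, (alternatingGroup.normal).conj_mem _ x.2 t⟩, fun y hy => ?_⟩
    obtain ⟨s, hs⟩ := isConj_iff.1 (Equiv.Perm.isConj_iff_cycleType_eq.2 hy.symm)
    by_cases e : s ∈ alternatingGroup (Fin m)
    · exact .inl (isConj_iff.2 ⟨⟨s, e⟩, Subtype.ext hs⟩)
    refine .inr (isConj_iff.2 ⟨⟨s * t⁻¹, ?_⟩, Subtype.ext (by simp [← hs, mul_assoc])⟩)
    rw [Equiv.Perm.mem_alternatingGroup] at *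
    rw [map_mul, map_inv, Int.units_ne_iff_eq_neg.1 e, Int.units_ne_iff_eq_neg.1 ht, mul_inv_cancel]
  · push Not at h
    refine ⟨x, fun y hy => ?_⟩
    obtain ⟨s, hs⟩ := isConj_iff.1 (Equiv.Perm.isConj_iff_cycleType_eq.2 hy.symm)
    exact .inl (isConj_iff.2 ⟨⟨s, h s⟩, Subtype.ext hs⟩)

variable {G : Type} [Group G] [Finite G] {u p : ℕ}

theorem two_classes (H : Subgroup G) [H.Normal] (x x₁ : H)
    (h : ∀ y : H, orderOf y = orderOf x → IsConj x y ∨ IsConj x₁ y) :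
    ∃ i, i ≤ 2 ∧ 0 < i ∧ H.index ∣ i * Nat.card (centralizer {(x : G)}) := by
  classical
  let c : G → H := fun g => ⟨g * x * g⁻¹, Normal.conj_mem inferInstance _ x.2 g⟩
  have hc : ∀ g, orderOf (c g) = orderOf x := fun g => by
    rw [← orderOf_coe, ← orderOf_coe x]
    exact (MulAut.conj g).orderOf_eq x
  refine ⟨(H ⊔ centralizer {(x : G)}).index, ?_, Nat.pos_of_ne_zero index_ne_zero_of_finite, ?_⟩
  · refine (Nat.card_le_card_of_injective
      (fun q : G ⧸ (H ⊔ centralizer {(x : G)}) => IsConj x (c q.out)) fun q q' e => ?_).trans_eq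
      (by simp)
    have e1 : IsConj (c q.out) (c q'.out) := by
      by_cases a : IsConj x (c q.out)
      · exact a.symm.trans (e.mp a)
      · exact ((h _ (hc _)).resolve_left a).symm.trans ((h _ (hc _)).resolve_left (mt e.mpr a))
    obtain ⟨k, hk⟩ := isConj_iff.1 e1
    have hk : k * (q.out * x * q.out⁻¹) * (k : G)⁻¹ = q'.out * x * q'.out⁻¹ := congrArg Subtype.val hk
    rw [← q.out_eq', ← q'.out_eq', QuotientGroup.eq,
      show q.out⁻¹ * q'.out = (q.out⁻¹ * k * q.out⁻¹⁻¹) * (q.out⁻¹ * (k : G)⁻¹ * q'.out) by group]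
    refine mul_mem (mem_sup_left (Normal.conj_mem inferInstance _ k.2 _))
      (mem_sup_right (mem_centralizer_singleton_iff.2 ?_))
    rw [show q.out⁻¹ * (k : G)⁻¹ * q'.out * x =
      q.out⁻¹ * (k : G)⁻¹ * (q'.out * x * q'.out⁻¹) * q'.out by group, ← hk]
    group
  · rw [← relIndex_mul_index (le_sup_left : H ≤ H ⊔ centralizer {(x : G)}), relIndex_sup_left,
      mul_comm]
    exact mul_dvd_mul_left _ (relIndex_dvd_card _ _)

theorem cent_small (U : Subgroup G) (hu : u.Prime) (hU : IsPGroup u U) (hp : p.Prime) (hne : p ≠ u)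
    {y : G} (hy : orderOf y = p) (hN : y ∈ normalizer (U : Set G)) (h1 : Nat.card U < 2 * p)
    (h2 : Nat.card U ≠ p + 1) : y ∈ centralizer (U : Set G) := by
  classical
  have := Fact.mk hu
  have := Fact.mk hp
  have := Fintype.ofFinite U
  let φ := U.normalizerMonoidHom ⟨y, hN⟩
  have h3 : φ ^ p = 1 := by
    rw [← map_pow, show (⟨y, hN⟩ : normalizer (U : Set G)) ^ p = 1 from
      Subtype.ext (hy ▸ pow_orderOf_eq_one y), map_one]
  have h4 := Equiv.Perm.card_fixedPoints_modEq (f := (φ : U → U)) (p := p) (n := 1) (by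
    change MulAction.toEndHom (M := MulAut U) (α := U) φ ^ p ^ 1 = 1
    rw [pow_one, ← map_pow, h3, map_one])
  let F := φ.toMonoidHom.eqLocus (MonoidHom.id U)
  rw [← Nat.card_eq_fintype_card, ← Nat.card_eq_fintype_card] at h4
  change _ ≡ Nat.card F [MOD p] at h4
  by_cases e : F = ⊤
  · intro z hz
    have : φ ⟨z, hz⟩ = ⟨z, hz⟩ := (e ▸ mem_top _ : _ ∈ F)
    exact (mul_inv_eq_iff_eq_mul.1 (congrArg Subtype.val this)).symm
  have h5 : Nat.card F < Nat.card U :=
    (F.card_le_card_group).lt_of_ne (mt F.eq_top_of_card_eq e)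
  obtain ⟨c, hc⟩ := (Nat.modEq_iff_dvd' h5.le).1 h4.symm
  have h6 : c = 1 := by
    have := hp.pos
    rcases c with _ | _ | c
    · omega
    · rfl
    · nlinarith [Nat.sub_le (Nat.card U) (Nat.card F)]
  obtain ⟨a, ha⟩ := (hU.to_subgroup F).exists_card_eq
  obtain ⟨b, hb⟩ := hU.exists_card_eq
  rcases a with _ | a
  · rw [pow_zero] at ha
    rw [h6] at hc
    omega
  have hb0 : b ≠ 0 := fun e' => by
    have := Nat.card_pos (α := F)
    rw [e', pow_zero] at hb
    omega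
  refine (hne ((Nat.prime_dvd_prime_iff_eq hu hp).1 ?_).symm).elim
  rw [← mul_one p, ← h6, ← hc, ha, hb]
  exact Nat.dvd_sub (dvd_pow_self u hb0) (dvd_pow_self u a.succ_ne_zero)

theorem cent_cover (K : Subgroup G) [K.Normal] (H : Subgroup (G ⧸ K)) [H.Normal] [IsSimpleGroup H]
    (hC : centralizer (H : Set (G ⧸ K)) = ⊥) (hu : u.Prime) (hK : u ∣ Nat.card K) (hp : p.Prime)
    (h0 : p ∣ Nat.card G) (h0' : ¬ p ∣ Nat.card K) (h1 : u ^ (Nat.card K).factorization u < 2 * p)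
    (h2 : u ^ (Nat.card K).factorization u ≠ p + 1) (x : H) :
    ∃ g z : G, (g : G ⧸ K) = x ∧ orderOf z = u ∧ Commute g z := by
  have := Fact.mk hu
  obtain ⟨P⟩ : Nonempty (Sylow u K) := inferInstance
  have hF := P.normalizer_sup_eq_top
  have hP : IsPGroup u ((P : Subgroup K).map K.subtype) := P.isPGroup'.map _
  have hQ : Nat.card (P.map K.subtype) = u ^ (Nat.card K).factorization u := by
    rw [card_map_of_injective K.subtype_injective, P.card_eq_multiplicity]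
  have hU : (P : Subgroup K).map K.subtype ≠ ⊥ := fun e =>
    P.ne_bot_of_dvd_card hK ((map_eq_bot_iff_of_injective _ K.subtype_injective).1 e)
  generalize (P : Subgroup K).map K.subtype = U at hF hP hQ hU
  have := (nontrivial_iff_ne_bot U).2 hU
  have := hP.center_nontrivial
  obtain ⟨z, hz⟩ : ∃ z : center U, orderOf z = u := by
    obtain ⟨n, hn, e⟩ := (hP.to_subgroup (center U)).nontrivial_iff_card.1 inferInstance
    exact exists_prime_orderOf_dvd_card' u (e ▸ dvd_pow_self u hn.ne')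
  obtain ⟨y, y1, y2⟩ := section_GL_sup K (normalizer (U : Set G)) hp h0'
    (by rwa [sup_comm, hF, card_top])
  have y3 := cent_small U hu hP hp (fun e => h0' (e ▸ hK)) y2 y1 (hQ ▸ h1) (hQ ▸ h2)
  have hM : ((centralizer (U : Set G)).map (QuotientGroup.mk' K)).Normal := ⟨by
    rintro _ ⟨c, hc, rfl⟩ g
    obtain ⟨g, rfl⟩ := QuotientGroup.mk'_surjective K g
    obtain ⟨a, ha, k, hk, rfl⟩ := mem_sup_of_normal_right.1 (hF ▸ mem_top g)
    refine ⟨a * c * a⁻¹, fun w hw => ?_, ?_⟩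
    · have := congrArg (MulAut.conj a) (hc _ ((inv_mem ha w).1 hw))
      simpa [mul_assoc] using this
    · simp [(QuotientGroup.eq_one_iff k).2 hk]⟩
  have h3 : H ≤ (centralizer (U : Set G)).map (QuotientGroup.mk' K) := by
    rcases (hM.subgroupOf H).eq_bot_or_eq_top with e | e
    · have : (y : G ⧸ K) ∈ centralizer (H : Set (G ⧸ K)) := fun w hw =>
        (commute_of_normal_of_disjoint _ H hM inferInstance (subgroupOf_eq_bot.1 e) _ w
          ⟨y, y3, rfl⟩ hw).symm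
      rw [hC, mem_bot, QuotientGroup.eq_one_iff] at this
      exact (h0' (y2 ▸ orderOf_dvd_natCard _ this)).elim
    · exact subgroupOf_eq_top.1 e
  obtain ⟨g, hg, e⟩ := h3 x.2
  exact ⟨g, z.1.1, e, by rw [orderOf_coe, orderOf_coe, hz], (hg _ z.1.2).symm⟩

omit [Finite G] in
theorem mul_dvd_ord {g z : G} {o : ℕ} (hu : u.Prime) (ho : u.Coprime o) (hg : o ∣ orderOf g)
    (hz : orderOf z = u) (h : Commute g z) : ∃ g' : G, u * o ∣ orderOf g' := by
  by_cases e : u ∣ orderOf g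
  · exact ⟨g, ho.mul_dvd_of_dvd_of_dvd e hg⟩
  refine ⟨z * g, ?_⟩
  rw [h.symm.orderOf_mul_eq_mul_orderOf_of_coprime (hz ▸ hu.coprime_iff_not_dvd.2 e), hz]
  exact mul_dvd_mul_left u hg

theorem alt_end {n m p' : ℕ} (K : Subgroup G) [K.Normal] (H : Subgroup (G ⧸ K)) [H.Normal]
    [IsSimpleGroup H] (hC : centralizer (H : Set (G ⧸ K)) = ⊥) (e : H ≃* alternatingGroup (Fin m))
    (hc : 2 * Nat.card G = n.factorial) (hm : 2 ≤ m) (hn : m ≤ n) (hu : u.Prime) (hk : n - m < u)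
    (hd : u ∣ n.descFactorial (n - m)) (h4 : u = 2 → 4 ∣ n.descFactorial (n - m)) (A : Finset ℕ)
    (hA : ∀ r ∈ A, r.Prime ∧ r ≠ 2 ∧ r ≠ u) (hs : ∑ r ∈ A, r = m) (hne : p ≠ p')
    (hp : ∀ r, r = p ∨ r = p' → r.Prime ∧ n < 2 * r ∧ r ∣ Nat.card G ∧ ¬ r ∣ Nat.card K) :
    ∃ g : G, u * ∏ r ∈ A, r ∣ orderOf g := by
  have := Fact.mk hu
  have : Nontrivial (Fin m) := Fin.nontrivial_iff_two_le.2 hm
  have h1 : Nat.card K * H.index = n.descFactorial (n - m) := by
    refine Nat.eq_of_mul_eq_mul_left m.factorial_pos ?_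
    have := Nat.factorial_mul_descFactorial (Nat.sub_le n m)
    rw [Nat.sub_sub_self hn] at this
    have h0 : 2 * Nat.card H = m.factorial := by
      rw [Nat.card_congr e.toEquiv, two_mul_nat_card_alternatingGroup, Nat.card_perm, Nat.card_fin]
    rw [this, ← hc, card_eq_card_quotient_mul_card_subgroup K, ← H.card_mul_index, ← h0]
    ring
  have ho : u.Coprime (∏ r ∈ A, r) := Nat.Coprime.prod_right fun r hr =>
    (Nat.coprime_primes hu (hA r hr).1).2 (hA r hr).2.2.symm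
  obtain ⟨x, hx⟩ := alt_elt A (fun r hr => ⟨(hA r hr).1, (hA r hr).2.1⟩) hs.le
  have ox : orderOf (e.symm x : G ⧸ K) = ∏ r ∈ A, r := by rw [orderOf_coe, e.symm.orderOf_eq, hx]
  by_cases hK : u ∣ Nat.card K
  · have h2 : u ^ (Nat.card K).factorization u ≤ n := by
      have h3 := (Nat.ordProj_dvd (Nat.card K) u).trans (h1 ▸ dvd_mul_right _ _)
      rw [Nat.descFactorial_eq_factorial_mul_choose] at h3
      have h5 := ((hu.coprime_factorial_of_lt hk).pow_left _).dvd_of_dvd_mul_left h3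
      exact (Nat.pow_le_pow_right hu.pos ((hu.pow_dvd_iff_le_factorization
        (Nat.choose_pos (Nat.sub_le n m)).ne').1 h5)).trans
        (Nat.pow_factorization_choose_le (by omega))
    obtain ⟨r, hr, h3⟩ : ∃ r, (r = p ∨ r = p') ∧ u ^ (Nat.card K).factorization u ≠ r + 1 := by
      by_cases a : u ^ (Nat.card K).factorization u = p + 1
      exacts [⟨p', .inr rfl, by omega⟩, ⟨p, .inl rfl, a⟩]
    obtain ⟨r1, r2, r3, r4⟩ := hp r hr
    obtain ⟨g, z, g1, g2, g3⟩ := cent_cover K H hC hu hK r1 r3 r4 (by omega) h3 (e.symm x)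
    exact mul_dvd_ord hu ho (ox ▸ g1 ▸ orderOf_map_dvd (QuotientGroup.mk' K) g) g2 g3
  obtain ⟨x₁, h2⟩ := alt_two x
  have ct : ∀ y : alternatingGroup (Fin m), orderOf y = ∏ r ∈ A, r → y.1.cycleType = A.val :=
    fun y hy => (cyc_type y.1 A (fun r hr => (hA r hr).1) (by rw [orderOf_coe, hy])).2
      (by simp [hs])
  obtain ⟨i, i1, i2, i3⟩ := two_classes H (e.symm x) (e.symm x₁) fun y hy => by
    have := h2 (e y) ((ct _ (by rw [e.orderOf_eq, hy, e.symm.orderOf_eq, hx])).trans (ct x hx).symm)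
    exact this.imp (fun a => by simpa using e.symm.toMonoidHom.map_isConj a)
      fun a => by simpa using e.symm.toMonoidHom.map_isConj a
  have cp := hu.coprime_iff_not_dvd.2 hK
  have h3 : u ∣ Nat.card (centralizer {(e.symm x : G ⧸ K)}) := by
    by_cases a : u = 2
    · subst a
      have := ((cp.pow_left 2).dvd_of_dvd_mul_left (h1 ▸ h4 rfl)).trans i3
      interval_cases i <;> omega
    · refine (hu.dvd_mul.1 ((cp.dvd_of_dvd_mul_left (h1 ▸ hd)).trans i3)).resolve_left fun b => ?_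
      have := Nat.le_of_dvd i2 b
      have := hu.two_le
      omega
  obtain ⟨z, hz⟩ := exists_prime_orderOf_dvd_card' u h3
  obtain ⟨g, hg⟩ := mul_dvd_ord hu ho ox.symm.dvd ((orderOf_coe z).trans hz)
    (mem_centralizer_singleton_iff.1 z.2).symm
  obtain ⟨g, rfl⟩ := QuotientGroup.mk'_surjective K g
  exact ⟨g, hg.trans (orderOf_map_dvd _ g)⟩

end Pool.Agent.Lib.MP_7d41f7_al
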