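import Mathlib

/-! Estimates of Chebyshev type. -/

set_option autoImplicit false

namespace Pool.Agent.Lib.MP_7d41f7_al

open Real Finset Chebyshev
open scoped ArithmeticFunction.vonMangoldt

variable {x : ℝ}

/-- The logarithm of the factorial of the integer part. -/
noncomputable def lfa (x : ℝ) : ℝ := log (⌊x⌋₊.factorial)

/-- The combination of Chebyshev. -/
noncomputable def chF (x : ℝ) : ℝ := lfa x - lfa (x / 2) - lfa (x / 3) - lfa (x / 5) + lfa (x / 30)

theorem lfa_bd_aux1 {a b : ℝ} (ha : 0 < a) (hb : 0 < b) :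
    a * (log b - log a) ≤ b - a ∧ b - a ≤ b * (log b - log a) := by
  have h1 := mul_le_mul_of_nonneg_left (log_le_sub_one_of_pos (div_pos hb ha)) ha.le
  have h2 := mul_le_mul_of_nonneg_left (log_le_sub_one_of_pos (div_pos ha hb)) hb.le
  rw [log_div hb.ne' ha.ne', mul_sub a (b / a), mul_div_cancel₀ _ ha.ne'] at h1
  rw [log_div ha.ne' hb.ne', mul_sub b (a / b), mul_div_cancel₀ _ hb.ne'] at h2
  constructor <;> linarith

theorem lfa_bd_aux2 (m : ℕ) (hm : 1 ≤ m) : m * log m - m + 1 ≤ log (m.factorial : ℝ) ∧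
    log (m.factorial : ℝ) ≤ m * log m - m + 1 + log m := by
  induction m, hm using Nat.le_induction with
  | base => simp
  | succ m hm ih =>
    have h0 : (0 : ℝ) < m := by exact_mod_cast hm
    obtain ⟨h1, h2⟩ := lfa_bd_aux1 h0 (show (0 : ℝ) < m + 1 by linarith)
    rw [Nat.factorial_succ]
    push_cast
    rw [log_mul (by positivity) (by positivity)]
    constructor <;> linarith [ih.1, ih.2]

/-- A weak form of the formula of Stirling. -/
theorem lfa_bd (hx : 1 ≤ x) : |lfa x - (x * log x - x)| ≤ log x + 1 := by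
  have hm : 1 ≤ ⌊x⌋₊ := Nat.le_floor (by simpa using hx)
  have h0 : (1 : ℝ) ≤ ⌊x⌋₊ := by exact_mod_cast hm
  have h1 := Nat.floor_le (show 0 ≤ x by linarith)
  have h2 := Nat.lt_floor_add_one x
  obtain ⟨h3, h4⟩ := lfa_bd_aux2 _ hm
  obtain ⟨h5, h6⟩ := lfa_bd_aux1 (show (0 : ℝ) < ⌊x⌋₊ by linarith) (show 0 < x by linarith)
  have h7 := log_le_log (by linarith) h1
  have h8 := log_nonneg h0
  have h9 := mul_nonneg (sub_nonneg.2 h1) h8
  have h10 := mul_le_mul_of_nonneg_right (show x - ⌊x⌋₊ ≤ 1 by linarith) (h8.trans h7)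
  unfold lfa
  rw [abs_le]
  constructor <;> linarith

/-- Legendre's formula with the von Mangoldt function. -/
theorem lfa_eq (n N : ℕ) (h : n ≤ N) :
    log (n.factorial : ℝ) = ∑ k ∈ Ioc 0 N, Λ k * ((n / k : ℕ) : ℝ) := by
  induction n with
  | zero => simp
  | succ n ih =>
    have e : (n + 1).divisors = (Ioc 0 N).filter (· ∣ n + 1) := by
      ext k
      simp only [Nat.mem_divisors, mem_filter, mem_Ioc]
      exact ⟨fun a => ⟨⟨Nat.pos_of_dvd_of_pos a.1 n.succ_pos,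
        (Nat.le_of_dvd n.succ_pos a.1).trans h⟩, a.1⟩, fun a => ⟨a.2, n.succ_ne_zero⟩⟩
    rw [Nat.factorial_succ, Nat.cast_mul, log_mul (by positivity) (by positivity), ih (by omega),
      ← ArithmeticFunction.vonMangoldt_sum, e, sum_filter, ← sum_add_distrib]
    refine sum_congr rfl fun k _ => ?_
    rw [Nat.succ_div]
    split_ifs <;> push_cast <;> ring

/-- The estimate for the combination. -/
theorem chF_bd (hx : 30 ≤ x) :
    0.9211 * x - 5 * log x ≤ chF x ∧ chF x ≤ 0.9215 * x + 5 * log x := by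
  have h0 : 0 < x := by linarith
  have h1 := abs_le.1 (lfa_bd (x := x) (by linarith))
  have h2 := abs_le.1 (lfa_bd (x := x / 2) (by linarith))
  have h3 := abs_le.1 (lfa_bd (x := x / 3) (by linarith))
  have h5 := abs_le.1 (lfa_bd (x := x / 5) (by linarith))
  have h30 := abs_le.1 (lfa_bd (x := x / 30) (by linarith))
  have e : log 30 = log 2 + log 3 + log 5 := by
    rw [← log_mul (by norm_num) (by norm_num), ← log_mul (by norm_num) (by norm_num)]; norm_num
  rw [log_div h0.ne' (by norm_num)] at h2 h3 h5 h30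
  rw [e] at h30
  have a2 := mul_le_mul_of_nonneg_left log_two_gt_d9.le h0.le
  have a3 := mul_le_mul_of_nonneg_left log_three_gt_d9.le h0.le
  have a5 := mul_le_mul_of_nonneg_left log_five_gt_d9.le h0.le
  have b2 := mul_le_mul_of_nonneg_left log_two_lt_d9.le h0.le
  have b3 := mul_le_mul_of_nonneg_left log_three_lt_d9.le h0.le
  have b5 := mul_le_mul_of_nonneg_left log_five_lt_d9.le h0.le
  have := log_two_gt_d9
  have := log_three_gt_d9
  have := log_five_gt_d9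
  unfold chF
  constructor <;> linarith [h1.1, h1.2, h2.1, h2.2, h3.1, h3.2, h5.1, h5.2, h30.1, h30.2]

theorem chF_eq_aux (x : ℝ) (c : ℕ) :
    lfa (x / c) = ∑ k ∈ Ioc 0 ⌊x⌋₊, Λ k * ((⌊x⌋₊ / k / c : ℕ) : ℝ) := by
  rw [lfa, Nat.floor_div_natCast, lfa_eq _ _ (Nat.div_le_self _ c)]
  exact sum_congr rfl fun k _ => by rw [Nat.div_div_eq_div_mul, Nat.div_div_eq_div_mul, mul_comm c]

theorem chF_eq (x : ℝ) : chF x = ∑ k ∈ Ioc 0 ⌊x⌋₊, Λ k *
    (((⌊x⌋₊ / k : ℕ) : ℝ) - (⌊x⌋₊ / k / 2 : ℕ) - (⌊x⌋₊ / k / 3 : ℕ) - (⌊x⌋₊ / k / 5 : ℕ) +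
      (⌊x⌋₊ / k / 30 : ℕ)) := by
  have h2 := chF_eq_aux x 2
  have h3 := chF_eq_aux x 3
  have h5 := chF_eq_aux x 5
  have h30 := chF_eq_aux x 30
  simp only [Nat.cast_ofNat] at h2 h3 h5 h30
  rw [chF, h2, h3, h5, h30, lfa, lfa_eq _ _ le_rfl]
  simp only [mul_add, mul_sub, sum_add_distrib, sum_sub_distrib]

theorem chF_le_aux (x : ℝ) (c : ℕ) (hc : 0 < c) :
    ψ (x / c) = ∑ k ∈ Ioc 0 ⌊x⌋₊, Λ k * (if c ≤ ⌊x⌋₊ / k then 1 else 0 : ℝ) := by
  simp only [mul_ite, mul_one, mul_zero]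
  rw [← sum_filter, psi, Nat.floor_div_natCast]
  refine sum_congr ?_ fun _ _ => rfl
  ext k
  simp only [mem_filter, mem_Ioc]
  constructor
  · rintro ⟨a, b⟩
    refine ⟨⟨a, b.trans (Nat.div_le_self _ _)⟩, (Nat.le_div_iff_mul_le a).2 ?_⟩
    rw [mul_comm]
    exact (Nat.le_div_iff_mul_le hc).1 b
  · rintro ⟨⟨a, -⟩, b⟩
    refine ⟨a, (Nat.le_div_iff_mul_le hc).2 ?_⟩
    rw [mul_comm]
    exact (Nat.le_div_iff_mul_le a).1 b

theorem chF_le_aux2 (t : ℕ) : ∃ w : ℤ,
    (t : ℝ) - (t / 2 : ℕ) - (t / 3 : ℕ) - (t / 5 : ℕ) + (t / 30 : ℕ) = w ∧ 0 ≤ w ∧ w ≤ 1 ∧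
      (1 ≤ t → t < 6 → w = 1) ∧ (7 ≤ t → t < 10 → w = 1) :=
  ⟨(t : ℤ) - (t / 2 : ℕ) - (t / 3 : ℕ) - (t / 5 : ℕ) + (t / 30 : ℕ), by
    simp only [Int.cast_add, Int.cast_sub, Int.cast_natCast], by omega, by omega,
    fun _ _ => by omega, fun _ _ => by omega⟩

theorem chF_le (x : ℝ) : chF x ≤ ψ x := by
  rw [chF_eq, psi]
  refine sum_le_sum fun k _ => ?_
  obtain ⟨w, e, -, h1, -⟩ := chF_le_aux2 (⌊x⌋₊ / k)
  rw [e]
  exact mul_le_of_le_one_right ArithmeticFunction.vonMangoldt_nonneg (by exact_mod_cast h1)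

theorem chF_ge_aux (x : ℝ) : ψ x - ψ (x / 6) + ψ (x / 7) - ψ (x / 10) ≤ chF x := by
  have h6 := chF_le_aux x 6 (by norm_num)
  have h7 := chF_le_aux x 7 (by norm_num)
  have h10 := chF_le_aux x 10 (by norm_num)
  simp only [Nat.cast_ofNat] at h6 h7 h10
  rw [h6, h7, h10, chF_eq, psi, ← sum_sub_distrib, ← sum_add_distrib, ← sum_sub_distrib]
  refine sum_le_sum fun k hk => ?_
  have h1 : 1 ≤ ⌊x⌋₊ / k := (Nat.le_div_iff_mul_le (mem_Ioc.1 hk).1).2 (by simpa using (mem_Ioc.1 hk).2)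
  obtain ⟨w, e, h0, -, ha, hb⟩ := chF_le_aux2 (⌊x⌋₊ / k)
  have hL : 0 ≤ Λ k := ArithmeticFunction.vonMangoldt_nonneg
  have h0' : 0 ≤ Λ k * (w : ℝ) := mul_nonneg hL (by exact_mod_cast h0)
  rw [e]
  split_ifs with c6 c7 c10 <;> first
    | omega
    | linarith
    | (rw [ha h1 (by omega)]; simp)
    | (rw [hb (by omega) (by omega)]; simp)

theorem chF_ge (x : ℝ) : ψ x - ψ (x / 6) ≤ chF x := by
  have h : ψ (x / 10) ≤ ψ (x / 7) := by
    rcases le_total 0 x with hx | hx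
    · exact psi_mono (by linarith)
    · rw [psi_eq_zero_of_lt_two (by linarith)]
      exact psi_nonneg _
  linarith [chF_ge_aux x]

theorem chF_ge' (x : ℝ) : ψ x - ψ (x / 6) + ψ (x / 7) - ψ (x / 10) ≤ chF x :=
  chF_ge_aux x

theorem psi_low (hx : 30 ≤ x) : 0.9211 * x - 5 * log x ≤ ψ x :=
  (chF_bd hx).1.trans (chF_le x)

theorem psi_up0_aux1 {n k : ℕ} (h : n.lcmUpto ≤ 2 ^ k) (hx : x ≤ n) : ψ x ≤ k * 0.6932 := by
  refine (psi_mono hx).trans ?_
  rw [psi_eq_log_lcmUpto]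
  refine (log_le_log (Nat.cast_pos.2 n.lcmUpto_pos) (Nat.cast_le.2 h)).trans ?_
  rw [Nat.cast_pow, log_pow]
  exact mul_le_mul_of_nonneg_left (by push_cast; linarith [log_two_lt_d9]) k.cast_nonneg

theorem psi_up0_aux2 {c d : ℝ} (hx : 0 ≤ x) (hd : 0 ≤ d) (hc : 0 < c) (h : 1 ≤ d ^ 2 * c) :
    √(x / c) ≤ d * √x := by
  rw [sqrt_le_iff, mul_pow, sq_sqrt hx, div_le_iff₀ hc]
  exact ⟨by positivity, by nlinarith⟩

theorem psi_up0_aux3 (hx : 0 ≤ x) (h : x ≤ 30) : ψ x ≤ 1.106 * x + 6 * √x := by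
  rcases lt_or_ge x 2 with a | a
  · rw [psi_eq_zero_of_lt_two a]
    positivity
  rcases le_total x 10 with b | b
  · have h1 := psi_up0_aux1 (n := 10) (k := 12) (by decide +kernel) (by exact_mod_cast b)
    have h2 : 1.4 ≤ √x := le_sqrt_of_sq_le (by linarith)
    push_cast at h1
    linarith
  · have h1 := psi_up0_aux1 (n := 30) (k := 42) (by decide +kernel) (by exact_mod_cast h)
    have h2 : 3.1 ≤ √x := le_sqrt_of_sq_le (by linarith)
    push_cast at h1
    linarith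

theorem psi_up0 (hx : 0 ≤ x) : ψ x ≤ 1.106 * x + 6 * √x := by
  obtain ⟨n, hn⟩ := exists_nat_ge x
  induction n generalizing x with
  | zero => exact psi_up0_aux3 hx (by push_cast at hn; linarith)
  | succ n ih =>
    rcases le_total x 30 with h | h
    · exact psi_up0_aux3 hx h
    push_cast at hn
    have h1 := ih (x := x / 6) (by positivity) (by linarith)
    have h2 := psi_up0_aux2 hx (d := 0.41) (c := 6) (by norm_num) (by norm_num) (by norm_num)
    have h3 : 5 ≤ √x := le_sqrt_of_sq_le (by linarith)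
    have h4 := log_le_sub_one_of_pos (show 0 < √x / 2 ^ 2 by positivity)
    rw [log_div (by positivity) (by positivity), log_sqrt hx, log_pow] at h4
    push_cast at h4
    linarith [chF_ge x, (chF_bd h).2, log_two_lt_d9]

theorem psi_up (hx : 210 ≤ x) : ψ x ≤ 1.085 * x + 4.4 * √x + 10 * log x := by
  have h0 : 0 ≤ x := by linarith
  have h1 := psi_up0_aux2 h0 (d := 0.41) (c := 6) (by norm_num) (by norm_num) (by norm_num)
  have h2 := psi_up0_aux2 h0 (d := 0.32) (c := 10) (by norm_num) (by norm_num) (by norm_num)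
  have h3 := log_le_log (show 0 < x / 7 by linarith) (show x / 7 ≤ x by linarith)
  linarith [chF_ge' x, (chF_bd (show 30 ≤ x by linarith)).2, psi_up0 (show 0 ≤ x / 6 by linarith),
    psi_up0 (show 0 ≤ x / 10 by linarith), psi_low (show 30 ≤ x / 7 by linarith), sqrt_nonneg x]

theorem psi_theta (hx : 40000 ≤ x) : ψ x - θ x ≤ 2.4 * √x := by
  have h0 : 0 ≤ x := by linarith
  have h1 : 200 ≤ √x := le_sqrt_of_sq_le (by linarith)
  have h2 : x ^ (2 : ℝ)⁻¹ = √x := by rw [sqrt_eq_rpow, one_div]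
  have h3 : x ^ (3 : ℝ)⁻¹ ≤ √x / 5 := by
    rw [rpow_inv_le_iff_of_pos h0 (by positivity) (by norm_num), rpow_ofNat]
    nlinarith [sq_sqrt h0]
  have h4 : x ^ (5 : ℝ)⁻¹ ≤ x ^ (3 : ℝ)⁻¹ :=
    rpow_le_rpow_of_exponent_le (by linarith) (by norm_num)
  have h5 : √(√x) ≤ 0.072 * √x := sqrt_le_iff.2 ⟨by positivity, by nlinarith⟩
  have h6 : √(√x / 5) ≤ 0.032 * √x := sqrt_le_iff.2 ⟨by positivity, by nlinarith⟩
  linarith [h2 ▸ psi_sub_theta_le_psi_add_psi_add_psi x, psi_mono h3, psi_mono (h4.trans h3),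
    psi_up0 (sqrt_nonneg x), psi_up0 (show 0 ≤ √x / 5 by positivity)]

theorem th_win_sqrt (hx : 300000 ≤ x) : 547 ≤ √x := le_sqrt_of_sq_le (by linarith)

theorem th_win_log (hx : 300000 ≤ x) : log x ≤ 0.03 * √x := by
  have h1 := th_win_sqrt hx
  have h2 := log_le_sub_one_of_pos (show 0 < √x / 2 ^ 10 by positivity)
  rw [log_div (by positivity) (by positivity), log_pow, log_sqrt (by linarith)] at h2
  have h3 := log_two_lt_d9
  push_cast at h2
  linarith

theorem th_win_low {y : ℝ} (hx : 300000 ≤ x) (h1 : 40000 ≤ y) (h2 : y ≤ x) :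
    0.9211 * y - 2.55 * √x ≤ θ y := by
  have h3 := psi_low (x := y) (by linarith)
  have h4 := psi_theta h1
  have h5 := sqrt_le_sqrt h2
  have h6 := log_le_log (by linarith) h2
  have h7 := th_win_log hx
  linarith

theorem th_win_up {y c : ℝ} (hx : 300000 ≤ x) (h1 : 210 ≤ y) (h2 : y ≤ x) (hc : √y ≤ c * √x) :
    θ y ≤ 1.085 * y + (4.4 * c + 0.3) * √x := by
  have h3 := psi_up h1
  have h4 := theta_le_psi y
  have h6 := log_le_log (by linarith) h2
  have h7 := th_win_log hx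
  linarith

theorem th_win (hx : 300000 ≤ x) : 5 * log x < θ x - θ (5 * x / 6) := by
  have h1 := th_win_low hx (by linarith) le_rfl
  have h2 := th_win_up (y := 5 * x / 6) (c := 1) hx (by linarith) (by linarith)
    (by rw [one_mul]; exact sqrt_le_sqrt (by linarith))
  have h3 := th_win_log hx
  have h4 := th_win_sqrt hx
  have h5 := mul_self_sqrt (show 0 ≤ x by linarith)
  nlinarith

theorem th_sum (hx : 300000 ≤ x) : 5 * x * log 2 <
    3 * (θ x + θ (x / 2) + θ (x / 3) + θ (x / 4) + θ (x / 5) - 5 * θ (x / 6)) := by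
  have h4 := th_win_sqrt hx
  have h5 := mul_self_sqrt (show 0 ≤ x by linarith)
  have a1 := th_win_low hx (by linarith) le_rfl
  have a2 := th_win_low (y := x / 2) hx (by linarith) (by linarith)
  have a3 := th_win_low (y := x / 3) hx (by linarith) (by linarith)
  have a4 := th_win_low (y := x / 4) hx (by linarith) (by linarith)
  have a5 := th_win_low (y := x / 5) hx (by linarith) (by linarith)
  have a6 := th_win_up (y := x / 6) (c := 0.41) hx (by linarith) (by linarith)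
    (sqrt_le_iff.mpr ⟨by positivity, by nlinarith⟩)
  have h6 : x * log 2 ≤ x * 0.6931471808 :=
    mul_le_mul_of_nonneg_left log_two_lt_d9.le (by linarith)
  nlinarith

end Pool.Agent.Lib.MP_7d41f7_al
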