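import Pool.Agent.Lib.MP_7d41f7_al.D.TDefs

/-! The alternating groups: the interface. -/

set_option autoImplicit false

namespace Pool.Agent.Lib.MP_7d41f7_al

open Finset

/-- What is known about a group with the order and the vanishing orders of an alternating group. -/
structure AData (G : Type) [Group G] (n : ℕ) : Prop where
  card : Nat.card G * 2 = n.factorial
  adj : ∀ P : Finset ℕ, (∀ p ∈ P, p.Prime) → (∃ r ∈ P, n + 6 ≤ 2 * r) →
    (∃ g : G, orderOf g = ∏ p ∈ P, p) → ∑ p ∈ P, p ≤ n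

/-- The primes between `5 n / 6` and `n`. -/
def piA (n : ℕ) : Finset ℕ := (Ioc (5 * n / 6) n).filter Nat.Prime

/-- The part of `n !` that belongs to the primes above `n / 6`. -/
def tA (n : ℕ) : ℕ := ∏ p ∈ (Ioc (n / 6) n).filter Nat.Prime, p ^ (n / p)

theorem mem_piA {n p : ℕ} : p ∈ piA n ↔ p.Prime ∧ 5 * n < 6 * p ∧ p ≤ n := by
  simp only [piA, mem_filter, mem_Ioc]
  constructor
  · exact fun ⟨⟨a, b⟩, c⟩ => ⟨c, by omega, b⟩
  · exact fun ⟨a, b, c⟩ => ⟨⟨by omega, c⟩, a⟩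

end Pool.Agent.Lib.MP_7d41f7_al
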