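import Mathlib

/-! The primorial in a finite range. -/

set_option autoImplicit false

namespace Pool.Agent.Lib.MP_7d41f7_al

/-- `k` if `k` is coprime to `M`, else `1`. -/
def prim_fin_T (M k : ℕ) : ℕ := cond (Nat.beq (Nat.gcd k M) 1) k 1

/-- The product of the primes between `a` and `a + 6 L`. -/
def prim_fin_B (M a L : ℕ) : ℕ :=
  Nat.rec 1 (fun i r => Nat.mul r (Nat.mul (prim_fin_T M (Nat.add (Nat.add a (Nat.mul 6 i)) 1))
    (prim_fin_T M (Nat.add (Nat.add a (Nat.mul 6 i)) 5)))) L

/-- Evaluate `x`, then continue. -/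
def prim_fin_F (x : ℕ) (k : ℕ → Bool) : Bool := Nat.rec (k 0) (fun n _ => k (Nat.succ n)) x

/-- Check `c` blocks of length `6 L`, then continue. -/
def prim_fin_C (M L c : ℕ) (k : ℕ → Bool) : ℕ → ℕ → Bool :=
  Nat.rec (fun _ P => k P) (fun _ r a P =>
    prim_fin_F (Nat.mul P (prim_fin_B M a L)) fun Q =>
      prim_fin_F (Nat.add a (Nat.mul 6 L)) fun b =>
      (Nat.ble (Nat.pow 2 (Nat.div (Nat.mul 33 b) 25)) P &&
        Nat.ble Q (Nat.pow 2 (Nat.div (Nat.mul 29 a) 20))) && r b Q) c

theorem prim_fin_run : prim_fin_F (Nat.factorial 550) (fun M =>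
    prim_fin_C M 1 400 (prim_fin_C M 5 900 (prim_fin_C M 50 900 (fun _ => true) 30000) 3000) 600
      (Nat.mul 223092870 (prim_fin_B (Nat.factorial 24) 24 96))) = true := by
  decide +kernel

theorem prim_fin_Feq (x : ℕ) (k : ℕ → Bool) : prim_fin_F x k = k x := by
  cases x <;> rfl

theorem prim_fin_succ (k : ℕ) :
    primorial (k + 1) = primorial k * if (k + 1).Prime then k + 1 else 1 := by
  unfold primorial
  rw [Finset.prod_filter, Finset.prod_filter, Finset.prod_range_succ _ (k + 1)]

theorem prim_fin_Teq {m k : ℕ} (hm : 1 ≤ m) (h1 : m < k) (h2 : k < (m + 1) ^ 2) :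
    prim_fin_T m.factorial k = if k.Prime then k else 1 := by
  have hk : k ≠ 1 := by omega
  have h : Nat.gcd k m.factorial = 1 ↔ k.Prime := by
    refine (Nat.coprime_factorial_iff hk).trans ⟨fun h => ?_, fun h => by rwa [h.minFac_eq]⟩
    by_contra hp
    have h3 := Nat.minFac_sq_le_self (by omega) hp
    have h4 : (m + 1) ^ 2 ≤ k.minFac ^ 2 := Nat.pow_le_pow_left h 2
    omega
  unfold prim_fin_T
  by_cases hp : k.Prime
  · rw [if_pos hp, h.mpr hp]; rfl
  · rw [if_neg hp]
    have : Nat.beq (Nat.gcd k m.factorial) 1 = false := by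
      rw [Bool.eq_false_iff]
      exact fun hb => hp (h.mp (Nat.eq_of_beq_eq_true hb))
    rw [this]; rfl

theorem prim_fin_np {d k : ℕ} (h1 : 1 < d) (h2 : d < k) (h : d ∣ k) : ¬ k.Prime := fun hp => by
  rcases (Nat.dvd_prime hp).mp h with h | h <;> omega

theorem prim_fin_Beq {m a : ℕ} (hm : 1 ≤ m) (h1 : m ≤ a) (h6 : 6 ∣ a) (L : ℕ)
    (h2 : a + 6 * L < (m + 1) ^ 2) :
    primorial (a + 6 * L) = primorial a * prim_fin_B m.factorial a L := by
  induction L with
  | zero => simp [prim_fin_B]
  | succ i ih =>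
    have e : prim_fin_B m.factorial a (i + 1) = prim_fin_B m.factorial a i *
        (prim_fin_T m.factorial (a + 6 * i + 1) * prim_fin_T m.factorial (a + 6 * i + 5)) := rfl
    rw [e, prim_fin_Teq hm (by omega) (by omega), prim_fin_Teq hm (by omega) (by omega),
      ← mul_assoc, ← ih (by omega),
      show a + 6 * (i + 1) = a + 6 * i + 1 + 1 + 1 + 1 + 1 + 1 by ring]
    generalize hb : a + 6 * i = b
    have hb6 : 6 ∣ b := by omega
    have hb0 : 1 ≤ b := by omega
    rw [prim_fin_succ, prim_fin_succ, prim_fin_succ, prim_fin_succ, prim_fin_succ, prim_fin_succ,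
      if_neg (prim_fin_np (d := 2) (k := b + 1 + 1) (by omega) (by omega) (by omega)),
      if_neg (prim_fin_np (d := 3) (k := b + 1 + 1 + 1) (by omega) (by omega) (by omega)),
      if_neg (prim_fin_np (d := 2) (k := b + 1 + 1 + 1 + 1) (by omega) (by omega) (by omega)),
      if_neg (prim_fin_np (d := 2) (k := b + 1 + 1 + 1 + 1 + 1 + 1) (by omega) (by omega)
        (by omega))]
    simp only [mul_one, mul_assoc]

theorem prim_fin_Cok (L c : ℕ) (k : ℕ → Bool) : ∀ a : ℕ, 550 ≤ a → 6 ∣ a →
    a + 6 * L * c ≤ 300000 → prim_fin_C (Nat.factorial 550) L c k a (primorial a) = true →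
    k (primorial (a + 6 * L * c)) = true ∧ ∀ n, a ≤ n → n ≤ a + 6 * L * c → c ≠ 0 →
      2 ^ (33 * n / 25) ≤ primorial n ∧ primorial n ≤ 2 ^ (29 * n / 20) := by
  induction c with
  | zero => exact fun a _ _ _ h => ⟨h, fun _ _ _ h0 => absurd rfl h0⟩
  | succ c ih =>
    intro a h1 h6 h2 h
    have e : a + 6 * L * (c + 1) = a + 6 * L + 6 * L * c := by ring
    have hb := prim_fin_Beq (m := 550) (by norm_num) h1 h6 L (by rw [e] at h2; omega)
    have h' : ((Nat.ble (2 ^ (33 * (a + 6 * L) / 25)) (primorial a) &&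
        Nat.ble (primorial (a + 6 * L)) (2 ^ (29 * a / 20))) &&
        prim_fin_C (Nat.factorial 550) L c k (a + 6 * L) (primorial (a + 6 * L))) = true := by
      rw [hb]
      unfold prim_fin_C at h ⊢
      simp only [prim_fin_Feq] at h ⊢
      exact h
    simp only [Bool.and_eq_true, Nat.ble_eq] at h'
    obtain ⟨⟨p1, p2⟩, p3⟩ := h'
    obtain ⟨q1, q2⟩ := ih (a + 6 * L) (by omega) (by omega) (e ▸ h2) p3
    rw [e]
    refine ⟨q1, fun n n1 n2 _ => ?_⟩
    by_cases hn : n ≤ a + 6 * L
    · exact ⟨(Nat.pow_le_pow_right two_pos (by omega)).trans (p1.trans (primorial_mono n1)),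
        ((primorial_mono hn).trans p2).trans (Nat.pow_le_pow_right two_pos (by omega))⟩
    · refine q2 n (by omega) n2 ?_
      rintro rfl
      omega

/-- One pass in the kernel. -/
theorem prim_fin {n : ℕ} (h1 : 600 ≤ n) (h2 : n ≤ 300000) :
    2 ^ (33 * n / 25) ≤ primorial n ∧ primorial n ≤ 2 ^ (29 * n / 20) := by
  have h := prim_fin_run
  have e : primorial 24 = 223092870 := by decide +kernel
  have e2 : primorial 600 = Nat.mul 223092870 (prim_fin_B (Nat.factorial 24) 24 96) := by
    rw [← e]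
    exact prim_fin_Beq (m := 24) (a := 24) (by norm_num) le_rfl (by norm_num) 96 (by norm_num)
  rw [prim_fin_Feq, ← e2] at h
  obtain ⟨h3, a1⟩ := prim_fin_Cok 1 400 _ 600 (by norm_num) (by norm_num) (by norm_num) h
  obtain ⟨h4, a2⟩ := prim_fin_Cok 5 900 _ 3000 (by norm_num) (by norm_num) (by norm_num) h3
  obtain ⟨-, a3⟩ := prim_fin_Cok 50 900 _ 30000 (by norm_num) (by norm_num) (by norm_num) h4
  by_cases c1 : n ≤ 3000
  · exact a1 n h1 c1 (by norm_num)
  by_cases c2 : n ≤ 30000
  · exact a2 n (by omega) c2 (by norm_num)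
  · exact a3 n (by omega) h2 (by norm_num)

/-- Evaluate `x` before the call of `f`. -/
def win_small_force (x : ℕ) (f : ℕ → ℕ) : ℕ := Nat.casesOn x (f 0) fun k => f (k + 1)

theorem win_small_force_eq (x : ℕ) (f : ℕ → ℕ) : win_small_force x f = f x := by
  cases x <;> rfl

/-- The primorial by a loop. -/
noncomputable def win_small_go (f : ℕ) : ℕ → ℕ → ℕ :=
  Nat.rec (fun _ acc => acc) (fun _ ih k acc =>
    win_small_force (if Nat.gcd (k + 1) acc = 1 then (k + 1) * acc else acc) fun a =>
      win_small_force (k + 1) fun k' => ih k' a) f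

theorem win_small_step (k : ℕ) : (if Nat.gcd (k + 1) (primorial k) = 1 then (k + 1) * primorial k
    else primorial k) = primorial (k + 1) := by
  rcases Nat.eq_zero_or_pos k with rfl | hk
  · simp
  have e : primorial (k + 1) = if (k + 1).Prime then (k + 1) * primorial k else primorial k := by
    unfold primorial
    rw [Finset.range_add_one (n := k + 1), Finset.filter_insert]
    split_ifs
    · rw [Finset.prod_insert (by simp)]
    · rfl
  rw [e]
  refine if_congr ⟨fun h => ?_, fun h => ?_⟩ rfl rfl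
  · by_contra hp
    have h1 := Nat.minFac_prime (n := k + 1) (by omega)
    have h2 := (Nat.not_prime_iff_minFac_lt (n := k + 1) (by omega)).1 hp
    have h3 := Nat.dvd_gcd (Nat.minFac_dvd (k + 1)) (h1.dvd_primorial_iff.2 (Nat.lt_succ_iff.1 h2))
    rw [h] at h3
    exact h1.one_lt.ne' (Nat.dvd_one.1 h3)
  · exact (Nat.Prime.coprime_iff_not_dvd h).2 fun hd => by
      have := h.dvd_primorial_iff.1 hd
      omega

theorem win_small_go_eq (f k : ℕ) : win_small_go f k (primorial k) = primorial (k + f) := by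
  induction f generalizing k with
  | zero => rfl
  | succ f ih =>
    change win_small_force _ _ = _
    rw [win_small_force_eq, win_small_step]
    exact (ih (k + 1)).trans (by rw [Nat.add_right_comm, Nat.add_assoc])

theorem win_small_pf (n : ℕ) : primorial n = win_small_go n 0 1 := by
  simpa using (win_small_go_eq n 0).symm

theorem win_small_cell {n a b : ℕ} (h1 : a ≤ n) (h2 : n ≤ b)
    (h : b ^ 5 * win_small_go (5 * b / 6) 0 1 < win_small_go a 0 1) :
    n ^ 5 * primorial (5 * n / 6) < primorial n := by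
  rw [← win_small_pf, ← win_small_pf] at h
  exact (Nat.mul_le_mul (Nat.pow_le_pow_left h2 5) (primorial_mono (by omega))).trans_lt
    (h.trans_le (primorial_mono h1))

theorem win_small {n : ℕ} (h1 : 296 ≤ n) (h2 : n ≤ 720) :
    n ^ 5 * primorial (5 * n / 6) < primorial n := by
  have key : ∀ p ∈ ([(296, 322), (323, 339), (340, 368), (369, 404), (405, 447), (448, 502),
      (503, 560), (561, 610), (611, 692), (693, 720)] : List (ℕ × ℕ)), p.2 ^ 5 * win_small_go (5 * p.2 / 6) 0 1 < win_small_go p.1 0 1 := by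
    decide +kernel
  have hc : ∃ p ∈ ([(296, 322), (323, 339), (340, 368), (369, 404), (405, 447), (448, 502),
      (503, 560), (561, 610), (611, 692), (693, 720)] : List (ℕ × ℕ)), p.1 ≤ n ∧ n ≤ p.2 := by
    simp only [List.mem_cons, List.not_mem_nil, or_false, exists_eq_or_imp, exists_eq_left]
    omega
  obtain ⟨p, hp, h3, h4⟩ := hc
  exact win_small_cell h3 h4 (key p hp)

theorem sum_small_cell {n a b : ℕ} (h1 : a ≤ n) (h2 : n ≤ b)
    (h : 2 ^ (5 * b) * win_small_go (b / 6) 0 1 ^ 15 < (win_small_go a 0 1 * win_small_go (a / 2) 0 1 *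
      win_small_go (a / 3) 0 1 * win_small_go (a / 4) 0 1 * win_small_go (a / 5) 0 1) ^ 3) :
    2 ^ (5 * n) * primorial (n / 6) ^ 15 < (primorial n * primorial (n / 2) * primorial (n / 3) *
      primorial (n / 4) * primorial (n / 5)) ^ 3 := by
  simp only [← win_small_pf] at h
  refine (Nat.mul_le_mul (Nat.pow_le_pow_right (by norm_num) (by omega))
    (Nat.pow_le_pow_left (primorial_mono (by omega)) 15)).trans_lt
    (h.trans_le (Nat.pow_le_pow_left ?_ 3))
  gcongr <;> exact primorial_mono (by omega)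

theorem sum_small {n : ℕ} (h1 : 296 ≤ n) (h2 : n ≤ 3600) :
    2 ^ (5 * n) * primorial (n / 6) ^ 15 < (primorial n * primorial (n / 2) * primorial (n / 3) *
      primorial (n / 4) * primorial (n / 5)) ^ 3 := by
  have key : ∀ p ∈ ([(296, 326), (327, 365), (366, 405), (406, 442), (443, 489), (490, 545),
      (546, 610), (611, 669), (670, 760), (761, 855), (856, 966), (967, 1085),
      (1086, 1199), (1200, 1361), (1362, 1541), (1542, 1726), (1727, 1962), (1963, 2232),
      (2233, 2525), (2526, 2860), (2861, 3281), (3282, 3600)] : List (ℕ × ℕ)), 2 ^ (5 * p.2) * win_small_go (p.2 / 6) 0 1 ^ 15 <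
      (win_small_go p.1 0 1 * win_small_go (p.1 / 2) 0 1 * win_small_go (p.1 / 3) 0 1 *
        win_small_go (p.1 / 4) 0 1 * win_small_go (p.1 / 5) 0 1) ^ 3 := by
    decide +kernel
  have hc : ∃ p ∈ ([(296, 326), (327, 365), (366, 405), (406, 442), (443, 489), (490, 545),
      (546, 610), (611, 669), (670, 760), (761, 855), (856, 966), (967, 1085),
      (1086, 1199), (1200, 1361), (1362, 1541), (1542, 1726), (1727, 1962), (1963, 2232),
      (2233, 2525), (2526, 2860), (2861, 3281), (3282, 3600)] : List (ℕ × ℕ)), p.1 ≤ n ∧ n ≤ p.2 := by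
    simp only [List.mem_cons, List.not_mem_nil, or_false, exists_eq_or_imp, exists_eq_left]
    omega
  obtain ⟨p, hp, h3, h4⟩ := hc
  exact sum_small_cell h3 h4 (key p hp)

end Pool.Agent.Lib.MP_7d41f7_al
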