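import Pool.Agent.Lib.MP_7d41f7_al.A.ADefs
import Pool.Agent.Lib.MP_7d41f7_al.A.AAlt
import Pool.Agent.Lib.MP_7d41f7_al.C.Chr

/-! The alternating groups: orders of elements and vanishing elements. -/

set_option autoImplicit false

namespace Pool.Agent.Lib.MP_7d41f7_al

open Finset Equiv

variable {n k j r : ℕ}

theorem card_alt (hn : 2 ≤ n) : Nat.card (alternatingGroup (Fin n)) * 2 = n.factorial := by
  have : Nontrivial (Fin n) := Fin.nontrivial_iff_two_le.2 hn
  rw [mul_comm, two_mul_nat_card_alternatingGroup, Nat.card_perm, Nat.card_fin]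

/-- The subsets with `k` elements. -/
abbrev KSub (n k : ℕ) : Type := {s : Finset (Fin n) // s.card = k}

instance : MulAction (alternatingGroup (Fin n)) (KSub n k) where
  smul g s := ⟨s.1.map g.1.toEmbedding, by rw [card_map, s.2]⟩
  one_smul s := Subtype.ext (map_refl (s := s.1))
  mul_smul g h s := Subtype.ext (map_map h.1.toEmbedding g.1.toEmbedding s.1).symm

theorem sub_smul (g : alternatingGroup (Fin n)) (s : KSub n k) :
    (g • s).1 = s.1.map g.1.toEmbedding := rfl

theorem sub_tr_card (s t : Finset (Fin n)) (c : Bool × Bool) :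
    (univ.filter fun x => (decide (x ∈ s), decide (x ∈ t)) = c).card =
      if c.1 then (if c.2 then (s ∩ t).card else s.card - (s ∩ t).card)
      else if c.2 then t.card - (s ∩ t).card else n - (s.card + t.card - (s ∩ t).card) := by
  have h1 := card_union_add_card_inter s t
  have h2 := card_sdiff_add_card_inter s t
  have h3 := card_sdiff_add_card_inter t s
  have h4 := card_compl (s ∪ t)
  rw [inter_comm] at h3
  rw [Fintype.card_fin] at h4
  rcases c with ⟨_ | _, _ | _⟩
  · rw [show (univ.filter _) = (s ∪ t)ᶜ by ext; simp]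
    simp only [Bool.false_eq_true, if_false]
    omega
  · rw [show (univ.filter _) = t \ s by ext; simp [and_comm]]
    simp only [Bool.false_eq_true, if_false, if_true]
    omega
  · rw [show (univ.filter _) = s \ t by ext; simp]
    simp only [Bool.false_eq_true, if_false, if_true]
    omega
  · rw [show (univ.filter _) = s ∩ t by ext; simp]
    simp only [if_true]

theorem sub_tr_map {s s' : Finset (Fin n)} {σ : Perm (Fin n)} (h : ∀ x, σ x ∈ s' ↔ x ∈ s) :
    s.map σ.toEmbedding = s' := by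
  ext y
  rw [mem_map_equiv, ← h, apply_symm_apply]

/-- The four regions have the same sizes; the sign is corrected by a swap outside the union. -/
theorem sub_tr (h : k + j + 2 ≤ n) (p p' : KSub n k × KSub n j)
    (e : (p.1.1 ∩ p.2.1).card = (p'.1.1 ∩ p'.2.1).card) :
    ∃ g : alternatingGroup (Fin n), g • p = p' := by
  obtain ⟨⟨s, hs⟩, t, ht⟩ := p
  obtain ⟨⟨s', hs'⟩, t', ht'⟩ := p'
  change (s ∩ t).card = (s' ∩ t').card at e
  have key : ∀ σ : Perm (Fin n), Perm.sign σ = 1 → (∀ x, (σ x ∈ s' ↔ x ∈ s) ∧ (σ x ∈ t' ↔ x ∈ t)) →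
      ∃ g : alternatingGroup (Fin n), g • ((⟨s, hs⟩, ⟨t, ht⟩) : KSub n k × KSub n j) =
        (⟨s', hs'⟩, ⟨t', ht'⟩) := fun σ h1 h2 =>
    ⟨⟨σ, h1⟩, Prod.ext (Subtype.ext (sub_tr_map fun x => (h2 x).1))
      (Subtype.ext (sub_tr_map fun x => (h2 x).2))⟩
  obtain ⟨σ, hσ⟩ : ∃ σ : Perm (Fin n), ∀ x, (σ x ∈ s' ↔ x ∈ s) ∧ (σ x ∈ t' ↔ x ∈ t) := by
    have E : ∀ c : Bool × Bool, {x // (decide (x ∈ s), decide (x ∈ t)) = c} ≃
        {x // (decide (x ∈ s'), decide (x ∈ t')) = c} := fun c => Fintype.equivOfCardEq (by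
      rw [Fintype.card_subtype, Fintype.card_subtype, sub_tr_card, sub_tr_card, hs, ht, hs', ht', e])
    refine ⟨ofFiberEquiv E, fun x => ?_⟩
    simpa using ofFiberEquiv_map E x
  rcases Int.units_eq_one_or (Perm.sign σ) with h1 | h1
  · exact key σ h1 hσ
  obtain ⟨a, ha, b, hb, hab⟩ : ∃ a ∈ (s ∪ t)ᶜ, ∃ b ∈ (s ∪ t)ᶜ, a ≠ b := by
    rw [← one_lt_card, card_compl, Fintype.card_fin]
    have := card_union_le s t
    omega
  rw [mem_compl, mem_union, not_or] at ha hb
  refine key (σ * swap a b) (by rw [map_mul, h1, Perm.sign_swap hab]; rfl) fun x => ?_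
  rw [Perm.mul_apply, (hσ _).1, (hσ _).2, swap_apply_def]
  split_ifs with h2 h3
  · simp [h2, ha, hb]
  · simp [h3, ha, hb]
  · exact ⟨Iff.rfl, Iff.rfl⟩

/-- The size of the intersection is a bijection from the orbits to `Fin (j + 1)`. -/
theorem sub_orb (h : k + j + 2 ≤ n) (hj : j ≤ k) :
    nOrb (alternatingGroup (Fin n)) (KSub n k × KSub n j) = j + 1 := by
  let f : KSub n k × KSub n j → Fin (j + 1) := fun p =>
    ⟨(p.1.1 ∩ p.2.1).card, Nat.lt_succ_of_le ((card_le_card inter_subset_right).trans p.2.2.le)⟩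
  refine (Nat.card_eq_of_bijective (Quotient.lift f ?_) ⟨?_, fun i => ?_⟩).trans (Nat.card_fin _)
  · rintro _ p ⟨g, rfl⟩
    exact Fin.ext ((congrArg card (map_inter p.1.1 p.2.1).symm).trans (card_map g.1.toEmbedding))
  · rintro ⟨p⟩ ⟨p'⟩ e
    exact Quotient.sound (sub_tr h p' p (congrArg Fin.val e).symm)
  · have h0 := i.2
    obtain ⟨s, -, hs⟩ := exists_subset_card_eq (s := (univ : Finset (Fin n))) (n := k)
      (by rw [card_fin]; omega)
    obtain ⟨a, h1, ha⟩ := exists_subset_card_eq (s := s) (n := i) (by omega)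
    obtain ⟨b, h2, hb⟩ := exists_subset_card_eq (s := sᶜ) (n := j - i)
      (by rw [card_compl, Fintype.card_fin]; omega)
    have h3 : Disjoint s b := disjoint_compl_right.mono_right h2
    refine ⟨Quotient.mk _ (⟨s, hs⟩, ⟨a ∪ b, ?_⟩), Fin.ext ?_⟩
    · rw [card_union_of_disjoint (h3.mono_left h1)]
      omega
    · change (s ∩ (a ∪ b)).card = i
      rw [inter_union_distrib_left, disjoint_iff_inter_eq_empty.1 h3, union_empty,
        inter_eq_right.2 h1, ha]

/-- An invariant set contains the support of a long cycle or is disjoint from it. -/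
theorem sub_fix (hr : r.Prime) (h : n < 2 * r) (h1 : n < k + r) (h2 : k < r)
    {g : alternatingGroup (Fin n)} (hg : r ∣ orderOf g) : nFix (KSub n k) g = 0 := by
  have _ := h
  obtain ⟨_, h3, h4⟩ := hr.prime.exists_mem_multiset_dvd ((Subgroup.orderOf_coe g ▸ hg).trans
    (g.1.lcm_cycleType ▸ Multiset.lcm_dvd.2 fun _ => Multiset.dvd_prod))
  have h5 := Nat.le_of_dvd (Nat.zero_lt_of_lt (Perm.two_le_of_mem_cycleType h3)) h4
  obtain ⟨c, hc, rfl⟩ := Multiset.mem_map.1 h3
  refine Nat.card_eq_zero.2 (Or.inl ⟨fun ⟨s, hs⟩ => ?_⟩)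
  have h6 : ∀ x ∈ s.1, g.1 x ∈ s.1 := fun x hx => by
    have := mem_map_of_mem g.1.toEmbedding hx
    rwa [← sub_smul, show g • s = s from hs] at this
  by_cases e : Disjoint s.1 c.support
  · have := card_le_univ (s.1 ∪ c.support)
    rw [card_union_of_disjoint e, s.2, Fintype.card_fin] at this
    change r ≤ c.support.card at h5
    omega
  · obtain ⟨x, h7, h8⟩ := not_disjoint_iff.1 e
    refine (h2.trans_le h5).not_ge (s.2 ▸ card_le_card fun y hy => ?_)
    rw [Perm.cycle_is_cycleOf h8 hc, Perm.mem_support_cycleOf_iff] at hy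
    obtain ⟨i, rfl⟩ := hy.1.exists_nat_pow_eq
    clear hy
    induction i with
    | zero => exact h7
    | succ i ih => exact pow_succ' g.1 i ▸ h6 _ ih

/-- `perm_van` with `X = KSub n (n + 1 - r)`, `Y = KSub n (n + 2 - r)` (swap the factors of a
product); `r ≤ n` by `cyc_sum`. -/
theorem alt_van (hr : r.Prime) (h : n + 6 ≤ 2 * r) (hn : 6 ≤ n) (g : alternatingGroup (Fin n))
    (hg : r ∣ orderOf g) : orderOf g ∈ Vo (alternatingGroup (Fin n)) := by
  have h1 : r ≤ n := by
    simpa using cyc_sum g.1 {r} (by simpa using hr) (by rwa [prod_singleton, Subgroup.orderOf_coe])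
  refine perm_van (X := KSub n (n + 2 - r)) (Y := KSub n (n + 1 - r)) ?_ ?_
  · rw [sub_orb (by omega) le_rfl, sub_orb (by omega) le_rfl, sub_orb (by omega) (by omega)]
    omega
  · rw [sub_fix hr (by omega) (by omega) (by omega) hg,
      sub_fix hr (by omega) (by omega) (by omega) hg]

theorem cyc_of_sq {G : Type} [Group G] [Finite G] (hr : r.Prime) (h : ¬ r ^ 2 ∣ Nat.card G) :
    Cyc G r := by
  have := Fact.mk hr
  by_cases e : r ∣ Nat.card G
  · obtain ⟨g, hg⟩ := exists_prime_orderOf_dvd_card' r e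
    exact cyc_of_order (c := 1) hr (by rw [hg, pow_one]) h
  · exact cyc_of_order (c := 0) (g := 1) hr (by simp) (by simpa using e)

theorem not_sq_fact (hr : r.Prime) (h : n < 2 * r) (h2 : r ≠ 2) : ¬ r ^ 2 ∣ n.factorial := by
  induction n with
  | zero => simpa using hr.ne_one
  | succ n ih =>
    rw [Nat.factorial_succ]
    intro e
    by_cases a : r ∣ n + 1
    · obtain ⟨c, hc⟩ := a
      have h3 : c = 1 := by
        rcases c with _ | _ | c
        · omega
        · rfl
        · nlinarith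
      rw [h3, mul_one] at hc
      rw [hc, sq, Nat.mul_dvd_mul_iff_left hr.pos, hr.dvd_factorial] at e
      omega
    · exact ih (by omega) (((hr.coprime_iff_not_dvd.2 a).pow_left 2).dvd_of_dvd_mul_left e)

/-- `transfer_adj` with `m = ∏ p ∈ P.erase r, p`; `cyc_sum`. -/
theorem adata {G : Type} [Group G] [Finite G] (hn : 6 ≤ n)
    (hc : Nat.card G = Nat.card (alternatingGroup (Fin n)))
    (hV : Vo G = Vo (alternatingGroup (Fin n))) : AData G n := by
  refine ⟨hc ▸ card_alt (by omega), fun P hP ⟨r, hr, h⟩ ⟨g, hg⟩ => ?_⟩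
  have hp := hP r hr
  have hm : (∏ p ∈ P.erase r, p).Coprime r := Nat.Coprime.prod_left fun p h1 =>
    (Nat.coprime_primes (hP p (mem_of_mem_erase h1)) hp).2 (ne_of_mem_erase h1)
  have h1 : Cyc (alternatingGroup (Fin n)) r := cyc_of_sq hp fun e =>
    not_sq_fact (n := n) hp (by omega) (by omega)
      (card_alt (n := n) (by omega) ▸ e.trans (dvd_mul_right _ 2))
  obtain ⟨x, hx⟩ := (transfer_adj hp hm hc hV h1 (alt_van hp h hn)).1
    ⟨g, hg.trans (prod_erase_mul P (fun p => p) hr).symm⟩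
  simpa using cyc_sum x.1 P hP
    (by rw [Subgroup.orderOf_coe, hx, prod_erase_mul P (fun p => p) hr])

/-- `295 ! < 2 * 10 ^ 603`. -/
theorem alt_big (h : 10 ^ 603 ≤ Nat.card (alternatingGroup (Fin n))) : 296 ≤ n := by
  by_contra e
  have h1 : Nat.factorial 295 < 2 * 10 ^ 603 := by decide +kernel
  have h2 := Nat.factorial_le (show n ≤ 295 by omega)
  by_cases a : 2 ≤ n
  · have := card_alt a
    generalize 10 ^ 603 = T at *
    omega
  · have h3 := (alternatingGroup (Fin n)).card_le_card_group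
    rw [Nat.card_perm, Nat.card_fin] at h3
    have h4 : Nat.factorial 1 < 10 ^ 603 := by decide +kernel
    have h5 := Nat.factorial_le (show n ≤ 1 by omega)
    generalize 10 ^ 603 = T at *
    omega

end Pool.Agent.Lib.MP_7d41f7_al
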