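import Pool.Agent.Lib.MP_7d41f7_al.A.ACh

/-! A large prime factor of a short product of consecutive numbers. -/

set_option autoImplicit false

namespace Pool.Agent.Lib.MP_7d41f7_al

open Nat

variable {n m k : ℕ}

theorem sy_pi (hk : k ≤ n) (hn : 0 < n) (h : ∀ p, p.Prime → p ∣ n.choose k → p ≤ k) :
    n.choose k ≤ n ^ k.primeCounting := by
  have hs : (n.choose k).primeFactors ⊆ primesLE k := fun p hp =>
    mem_primesLE.2 ⟨h p (prime_of_mem_primeFactors hp) (dvd_of_mem_primeFactors hp),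
      prime_of_mem_primeFactors hp⟩
  calc n.choose k = ∏ p ∈ (n.choose k).primeFactors, p ^ (n.choose k).factorization p := by
        conv_lhs => rw [← prod_factorization_pow_eq_self (choose_pos hk).ne']
        rw [prod_factorization_eq_prod_primeFactors]
    _ ≤ n ^ (n.choose k).primeFactors.card :=
        Finset.prod_le_pow_card _ _ _ fun p _ => pow_factorization_choose_le hn
    _ ≤ _ := Nat.pow_le_pow_right hn
        (primesLE_card_eq_primeCounting k ▸ Finset.card_le_card hs)

theorem sy_lcm (hk : k ≤ n) (h : ∀ p, p.Prime → p ∣ n.choose k → p ≤ k) :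
    n.choose k * primorial n ≤ lcmUpto n * primorial k := by
  obtain ⟨d, rfl⟩ := Nat.exists_eq_add_of_le hk
  have h1 := primorial_dvd_lcmUpto (k + d)
  rw [primorial_add] at h1 ⊢
  have h2 := Nat.Coprime.mul_dvd_of_dvd_of_dvd ?_ (Chebyshev.choose_dvd_lcmUpto hk)
    (dvd_of_mul_left_dvd h1)
  · rw [mul_comm (primorial k), ← mul_assoc]
    exact Nat.mul_le_mul_right _ (le_of_dvd (lcmUpto_pos _) h2)
  · refine Nat.Coprime.prod_right fun p hp => ?_
    rw [Finset.mem_filter, Finset.mem_Ico] at hp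
    exact ((hp.2.coprime_iff_not_dvd).2 fun hd => absurd (h p hp.2 hd) (by omega)).symm

theorem sy_low_aux (hk : k ≤ n) (j : ℕ) :
    n ^ j * k.descFactorial j ≤ k ^ j * n.descFactorial j := by
  induction j with
  | zero => simp
  | succ j ih =>
    have h : n * (k - j) ≤ k * (n - j) := by
      rw [Nat.mul_sub, Nat.mul_sub, mul_comm n k]
      exact Nat.sub_le_sub_left (Nat.mul_le_mul_right _ hk) _
    calc _ = n * (k - j) * (n ^ j * k.descFactorial j) := by rw [descFactorial_succ]; ring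
      _ ≤ k * (n - j) * (k ^ j * n.descFactorial j) := Nat.mul_le_mul h ih
      _ = _ := by rw [descFactorial_succ]; ring

theorem sy_low (hk : k ≤ n) : n ^ k ≤ k ^ k * n.choose k := by
  have h := sy_low_aux hk k
  rw [descFactorial_self, descFactorial_eq_factorial_mul_choose, mul_left_comm, mul_comm] at h
  exact Nat.le_of_mul_le_mul_left h k.factorial_pos

/-- One pass over `k = N - f` with an upper bound `c` for the number of primes up to `k`. -/
def sy_tab_run (N M f : ℕ) : ℕ → Bool :=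
  Nat.rec (fun _ => true) (fun f r c =>
    (bif Nat.blt (N - f) 50 then Nat.blt ((N - f) ^ (N - f) * 296 ^ c) (296 ^ (N - f))
      else Nat.blt ((6 * (N - f)) ^ c) (6 ^ (N - f))) &&
    bif Nat.beq (Nat.gcd (N - f + 1) (bif Nat.blt (N - f) 83 then (N - f)! else M)) 1
      then r (c + 1) else r c) f

theorem sy_tab_step (k : ℕ) :
    (k + 1).primeCounting = k.primeCounting + if (k + 1).Prime then 1 else 0 := by
  simp only [Nat.primeCounting, Nat.primeCounting']
  rw [Nat.count_succ]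

theorem sy_tab_ok (N M f : ℕ) (hM : ∀ p : ℕ, p.Prime → 83 < p → Nat.gcd p M = 1) :
    ∀ c, f ≤ N → (N + 1 - f).primeCounting ≤ c → sy_tab_run N M f c = true → ∀ k, N + 1 - f ≤ k → k ≤ N → ∃ c, k.primeCounting ≤ c ∧
      (k ^ k * 296 ^ c < 296 ^ k ∨ (6 * k) ^ c < 6 ^ k) := by
  induction f with
  | zero => intro c _ _ _ k h1 h2; omega
  | succ f ih =>
    intro c hf hc hr k h1 h2
    have e : N + 1 - (f + 1) = N - f := by omega
    have e' : N + 1 - f = N - f + 1 := by omega
    rw [e] at hc h1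
    simp only [sy_tab_run, Bool.and_eq_true] at hr
    obtain ⟨ha, hb⟩ := hr
    rcases h1.eq_or_lt with rfl | hlt
    · refine ⟨c, hc, ?_⟩
      cases hl : Nat.blt (N - f) 50 <;> rw [hl] at ha
      · exact Or.inr (Nat.blt_eq.mp ha)
      · exact Or.inl (Nat.blt_eq.mp ha)
    have hs := sy_tab_step (N - f)
    cases hq : Nat.beq (Nat.gcd (N - f + 1) (bif Nat.blt (N - f) 83 then (N - f)! else M)) 1
    · rw [hq] at hb
      refine ih c (by omega) ?_ hb k (by omega) h2
      rw [e', hs, if_neg]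
      · exact hc
      intro hp
      have hne := Nat.ne_of_beq_eq_false hq
      apply hne
      cases hl : Nat.blt (N - f) 83
      · have : ¬ N - f < 83 := by rw [← Nat.blt_eq, hl]; simp
        rw [cond_false]
        exact hM _ hp (by omega)
      · rw [cond_true]
        exact hp.coprime_factorial_of_lt (n := N - f) (by omega)
    · rw [hq] at hb
      refine ih (c + 1) (by omega) ?_ hb k (by omega) h2
      rw [e', hs]
      split_ifs <;> omega

theorem sy_tab_val : sy_tab_run 6700 (83)! 6700 0 = true := by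
  decide +kernel

/-- It is enough to check `n = 296` and `n = 6 k`. -/
theorem sy_tab (hn : 296 ≤ n) (h0 : 1 ≤ k) (h1 : k ≤ 6700) (h2 : 6 * k < n) :
    k ^ k * n ^ k.primeCounting < n ^ k := by
  obtain ⟨c, hc, h⟩ := sy_tab_ok 6700 (83)! 6700
    (fun p hp h => hp.coprime_factorial_of_lt (n := 83) h) 0 le_rfl
    Nat.primeCounting_one.le sy_tab_val k h0 h1
  have hck : c ≤ k := by
    rcases h with h | h
    · exact ((Nat.pow_lt_pow_iff_right (by norm_num)).1
        (lt_of_le_of_lt (Nat.le_mul_of_pos_left _ (Nat.pow_pos h0)) h)).le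
    · exact ((Nat.pow_lt_pow_iff_right (by norm_num)).1
        (lt_of_le_of_lt (Nat.pow_le_pow_left (by omega : 6 ≤ 6 * k) c) h)).le
  obtain ⟨d, hd⟩ := Nat.exists_eq_add_of_le hck
  have e : ∀ q : ℕ, q ^ k = q ^ d * q ^ c := fun q => by rw [← pow_add, hd, add_comm]
  have h3 : k ^ k < n ^ d := by
    rcases h with h | h
    · rw [e 296] at h
      exact (Nat.lt_of_mul_lt_mul_right h).trans_le (Nat.pow_le_pow_left hn d)
    · rw [e 6, mul_pow, mul_comm] at h
      calc k ^ k = k ^ d * k ^ c := e k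
        _ < k ^ d * 6 ^ d :=
          Nat.mul_lt_mul_of_pos_left (Nat.lt_of_mul_lt_mul_right h) (Nat.pow_pos h0)
        _ = (6 * k) ^ d := by rw [mul_pow, mul_comm]
        _ ≤ n ^ d := Nat.pow_le_pow_left h2.le d
  calc k ^ k * n ^ k.primeCounting ≤ k ^ k * n ^ c :=
        Nat.mul_le_mul_left _ (Nat.pow_le_pow_right (by omega) hc)
    _ < n ^ d * n ^ c := Nat.mul_lt_mul_of_pos_right h3 (Nat.pow_pos (by omega))
    _ = n ^ k := (e n).symm

/-- The middle range. -/
theorem sy_mid (h1 : 6700 < k) (h2 : k ^ 2 ≤ 36 * n) :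
    k ^ k * n ^ k.primeCounting < n ^ k := by
  have ha : k.primeCounting ≤ k / 3 + 3 := by
    have := Nat.primeCounting_add_le (a := 6) (k := 6) (by norm_num) le_rfl (k - 6)
    rw [show 6 + (k - 6) = k by omega, show Nat.primeCounting 6 = 3 by decide,
      show Nat.totient 6 = 2 by decide] at this
    omega
  generalize k.primeCounting = a at ha
  obtain ⟨c, hc⟩ : ∃ c, k = 2 * a + c := ⟨k - 2 * a, by omega⟩
  have hn0 : 300000 ≤ n := by nlinarith
  have hn : 36 ^ 7 ≤ n ^ 2 := by nlinarith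
  have h36 : 36 ^ k < n ^ c := by
    apply lt_of_pow_lt_pow_left₀ 2 (Nat.zero_le _)
    calc (36 ^ k) ^ 2 = 36 ^ (k * 2) := (pow_mul _ _ _).symm
      _ < 36 ^ (7 * c) := Nat.pow_lt_pow_right (by norm_num) (by omega)
      _ = (36 ^ 7) ^ c := pow_mul _ _ _
      _ ≤ (n ^ 2) ^ c := Nat.pow_le_pow_left hn c
      _ = (n ^ c) ^ 2 := by rw [← pow_mul, ← pow_mul, mul_comm]
  have hp : 0 < n := by omega
  apply lt_of_pow_lt_pow_left₀ 2 (Nat.zero_le _)
  calc (k ^ k * n ^ a) ^ 2 = (k ^ 2) ^ k * n ^ (a * 2) := by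
        rw [mul_pow, ← pow_mul, ← pow_mul, ← pow_mul, mul_comm k 2]
    _ ≤ (36 * n) ^ k * n ^ (a * 2) := by gcongr
    _ = 36 ^ k * (n ^ k * n ^ (a * 2)) := by rw [mul_pow, mul_assoc]
    _ < n ^ c * (n ^ k * n ^ (a * 2)) := mul_lt_mul_of_pos_right h36 (by positivity)
    _ = (n ^ k) ^ 2 := by
        rw [← pow_add, ← pow_add, ← pow_mul]
        congr 1
        omega

/-- The top range. -/
theorem sy_top (h1 : 6700 < k) (h2 : 36 * n ≤ k ^ 2) (h3 : 6 * k < n) :
    lcmUpto n * primorial k < 6 ^ k * primorial n := by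
  have hk : (6700 : ℝ) < k := by exact_mod_cast h1
  have hn : (40000 : ℝ) ≤ n := by exact_mod_cast (by omega : 40000 ≤ n)
  have h := psi_theta hn
  rw [Chebyshev.psi_eq_log_lcmUpto, Chebyshev.theta_eq_log_primorial, Nat.floor_natCast] at h
  have hs : √(n : ℝ) ≤ k / 6 := by
    apply Real.sqrt_le_iff.mpr ⟨by positivity, ?_⟩
    have : (36 : ℝ) * n ≤ (k : ℝ) ^ 2 := by exact_mod_cast h2
    nlinarith
  have hl : (0.4 : ℝ) < Real.log (3 / 2) := by
    rw [Real.log_div (by norm_num) (by norm_num)]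
    linarith [Real.log_three_gt_d9, Real.log_two_lt_d9]
  have hL : (0 : ℝ) < lcmUpto n := by exact_mod_cast lcmUpto_pos n
  have hP : (0 : ℝ) < primorial n := by exact_mod_cast primorial_pos n
  have h4 : (primorial k : ℝ) ≤ 4 ^ k := by exact_mod_cast primorial_le_four_pow k
  have h5 : (lcmUpto n : ℝ) < (3 / 2) ^ k * primorial n := by
    rw [← Real.log_lt_log_iff hL (by positivity), Real.log_mul (by positivity) hP.ne',
      Real.log_pow]
    nlinarith
  have : (lcmUpto n : ℝ) * primorial k < 6 ^ k * primorial n :=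
    calc (lcmUpto n : ℝ) * primorial k ≤ lcmUpto n * 4 ^ k := by gcongr
      _ < (3 / 2) ^ k * primorial n * 4 ^ k := by gcongr
      _ = 6 ^ k * primorial n := by
        rw [mul_right_comm, ← mul_pow]
        norm_num
  exact_mod_cast this

/-- A theorem of Sylvester type for `k = n - m`. -/
theorem sylv (hn : 296 ≤ n) (h1 : m < n) (h2 : 5 * n < 6 * m) :
    ∃ u, u.Prime ∧ n - m < u ∧ u ∣ n.descFactorial (n - m) := by
  obtain ⟨k, hk⟩ : ∃ k, k = n - m := ⟨_, rfl⟩
  rw [← hk]
  have h0 : 1 ≤ k := by omega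
  have h6 : 6 * k < n := by omega
  have hkn : k ≤ n := by omega
  by_contra hc
  have h : ∀ p, p.Prime → p ∣ n.choose k → p ≤ k := fun p hp hd => not_lt.1 fun hl =>
    hc ⟨p, hp, hl, descFactorial_eq_factorial_mul_choose n k ▸ dvd_mul_of_dvd_right hd _⟩
  have ha := (sy_low hkn).trans (Nat.mul_le_mul_left _ (sy_pi hkn (by omega) h))
  rcases le_or_gt k 6700 with h3 | h3
  · exact absurd (sy_tab hn h0 h3 h6) ha.not_gt
  rcases le_total (k ^ 2) (36 * n) with h4 | h4
  · exact absurd (sy_mid h3 h4) ha.not_gt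
  have hb : k ^ k * 6 ^ k ≤ k ^ k * n.choose k := by
    rw [← mul_pow]
    exact (Nat.pow_le_pow_left (by omega) k).trans (sy_low hkn)
  exact absurd (sy_top h3 h4 h6) ((Nat.mul_le_mul_right _
    (Nat.le_of_mul_le_mul_left hb (Nat.pow_pos h0))).trans (sy_lcm hkn h)).not_gt

end Pool.Agent.Lib.MP_7d41f7_al
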