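import Pool.Agent.Lib.MP_7d41f7_al.A.ANt
import Pool.Agent.Lib.MP_7d41f7_al.A.ASd
import Pool.Agent.Lib.MP_7d41f7_al.A.ASy
import Pool.Agent.Lib.MP_7d41f7_al.D.YG
import Pool.Agent.Lib.MP_7d41f7_al.D.YS
import Pool.Agent.Lib.MP_7d41f7_al.L.AL

/-! The groups with the data of an alternating group. -/

set_option autoImplicit false

namespace Pool.Agent.Lib.MP_7d41f7_al

open Subgroup

variable {G : Type} [Group G] [Finite G] {n m r u h : ℕ}

omit [Finite G] in
theorem AData.nad (D : AData G n) (hr : r.Prime) (hu : u.Prime) (hne : u ≠ r) (h1 : n + 6 ≤ 2 * r)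
    (h2 : n < u + r) : NAd G u r := by
  refine ⟨hne, fun ⟨g, hg⟩ => h2.not_ge ?_⟩
  have := D.adj {u, r} (by simp [hr, hu]) ⟨r, by simp, h1⟩ ⟨g, by rw [Finset.prod_pair hne, hg]⟩
  rwa [Finset.sum_pair hne] at this

/-- The order of the section contains the primes above `n / 6` completely. -/
structure AK (h n : ℕ) : Prop where
  big : 296 ≤ n
  dvd : h * 2 ∣ n.factorial
  kept : ∀ u i : ℕ, u.Prime → n < 6 * u → u ^ i ∣ n.factorial → u ^ i ∣ h

/-- `gsec2` for `π r := r ∈ piA n`. Another prime `s` of `piA n` shows that `r` is tight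
(`fact_big`). Let `u > n / 6` be a prime outside `piA n` and `a` its exponent in `card K`; then the
product of `piA n` divides `u ^ a - 1 < n ^ 5` (`piA_big`), so `a = 0`. If `u` divides the index
then it divides the difference of two primes of `piA n`, which is less than `n / 6`. -/
theorem AData.sec (D : AData G n) (hn : 296 ≤ n) :
    ∃ (K : Subgroup G) (_ : K.Normal) (H : Subgroup (G ⧸ K)), H.Normal ∧ IsSimpleGroup H ∧
      ¬ IsMulCommutative H ∧ centralizer (H : Set (G ⧸ K)) = ⊥ ∧ AK (Nat.card H) n ∧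
      ∀ r ∈ piA n, ¬ r ∣ Nat.card K := by
  have g0 := (Nat.card_pos (α := G)).ne'
  have gd : Nat.card G ∣ n.factorial := D.card ▸ dvd_mul_right _ _
  have ex : ∀ r, ∃ s ∈ piA n, s ≠ r := Finset.exists_mem_ne (by have := piA_card hn; omega)
  have na : ∀ r ∈ piA n, ∀ u, u.Prime → n < 6 * u → u ≠ r → NAd G u r := fun r hr u hu a b =>
    have := mem_piA.1 hr
    D.nad this.1 hu b (by omega) (by omega)
  have od : ∀ u i : ℕ, u.Prime → n < 6 * u → u ^ i ∣ n.factorial → u ^ i ∣ Nat.card G :=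
    fun u i hu a b => (((Nat.coprime_primes hu Nat.prime_two).2 (by omega)).pow_left
      i).dvd_of_dvd_mul_right (D.card ▸ b)
  have dv : ∀ r ∈ piA n, r ∣ Nat.card G := fun r hr =>
    have := mem_piA.1 hr
    pow_one r ▸ od r 1 this.1 (by omega) ((pow_one r).symm ▸ this.1.dvd_factorial.2 this.2.2)
  have ns : ∀ r ∈ piA n, ¬ r ^ 2 ∣ Nat.card G := fun r hr d =>
    have := mem_piA.1 hr
    not_sq_fact this.1 (by omega) (by omega) (d.trans gd)
  obtain ⟨K, _, H, h0, h1, h2, h3, h4, h5⟩ := gsec2 (G := G) (· ∈ piA n)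
    (fun r hr => by
      obtain ⟨r1, r2, r3⟩ := mem_piA.1 hr
      obtain ⟨s, hs, e⟩ := ex r
      obtain ⟨s1, s2, s3⟩ := mem_piA.1 hs
      refine ⟨r1, dv r hr, cyc_of_sq r1 (ns r hr), s, s1, e, (na r hr s s1 (by omega) e).2,
        fun c => ?_⟩
      have f : (Nat.card G).factorization s = 1 := by
        have := s1.factorization_pos_of_dvd g0 (dv s hs)
        have := mt (s1.pow_dvd_iff_le_factorization g0).2 (ns s hs)
        omega
      rw [f, pow_one] at c
      obtain ⟨k, hk⟩ := (Nat.modEq_iff_dvd' s1.one_le).1 c.symm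
      have := r1.eq_two_or_odd
      have := s1.eq_two_or_odd
      rcases k with _ | _ | k
      · omega
      · omega
      · have : r * 2 ≤ r * (k + 1 + 1) := Nat.mul_le_mul_left r (by omega)
        omega)
    (fun r s hr hs => by
      by_cases e : s = r
      · obtain ⟨t, ht, a⟩ := ex r
        have := na r hr t (mem_piA.1 ht).1 (by have := mem_piA.1 ht; omega) a
        exact ⟨t, ht, this, .inr (e ▸ this.symm)⟩
      · exact ⟨s, hs, na r hr s (mem_piA.1 hs).1 (by have := mem_piA.1 hs; omega) e, .inl rfl⟩)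
    ((ex 0).imp fun _ a => a.1)
  have cG : Nat.card G = Nat.card H * H.index * Nat.card K := by
    rw [H.card_mul_index, card_eq_card_quotient_mul_card_subgroup K]
  refine ⟨K, inferInstance, H, h0, h1, h2, h3, ⟨hn, D.card ▸ mul_dvd_mul_right
    (cG ▸ (dvd_mul_right _ _).mul_right _) 2, fun u i hu a d => ?_⟩, fun r hr => (h4 r hr).1⟩
  have b : ¬ u ∣ Nat.card K ∧ ¬ u ∣ H.index := by
    by_cases e : u ∈ piA n
    · exact h4 u e
    have k := fun r hr => h5 r u hr hu (na r hr u hu a fun c => e (c ▸ hr))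
    refine ⟨fun d => ?_, fun d => ?_⟩
    · have k0 := (Nat.card_pos (α := K)).ne'
      have k1 := hu.factorization_pos_of_dvd k0 d
      have k2 := ((Nat.ordProj_dvd (Nat.card K) u).trans K.card_subgroup_dvd_card).trans gd
      have k3 := (hu.pow_dvd_iff_le_factorization n.factorial_ne_zero).1 k2
      rw [fact_big hn hu a] at k3
      have k4 : n / u < 6 := (Nat.div_lt_iff_lt_mul hu.pos).2 a
      have k5 : u ≤ n := hu.dvd_factorial.1 ((dvd_pow_self u k1.ne').trans k2)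
      have k6 := Nat.one_lt_pow k1.ne' hu.one_lt
      have k7 := Nat.le_of_dvd (by omega) (Finset.prod_primes_dvd
        (u ^ (Nat.card K).factorization u - 1) (fun r hr => (mem_piA.1 hr).1.prime) fun r hr =>
          (Nat.modEq_iff_dvd' k6.le).1 ((k r hr).1.of_dvd (dvd_pow_self r
            ((mem_piA.1 hr).1.factorization_pos_of_dvd g0 (dv r hr)).ne')).symm)
      have k8 := (Nat.pow_le_pow_right hu.pos (k3.trans (Nat.le_of_lt_succ k4))).trans
        (Nat.pow_le_pow_left k5 5)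
      have := piA_big hn
      omega
    · obtain ⟨r, hr, -⟩ := ex 0
      obtain ⟨s, hs, c⟩ := ex r
      have l := fun r hr => (dvd_pow_self u
        (hu.factorization_pos_of_dvd H.index_ne_zero_of_finite d).ne').trans (k r hr).2
      have := mem_piA.1 hr
      have := mem_piA.1 hs
      rcases lt_or_gt_of_ne c with c | c
      · have := Nat.le_of_dvd (by omega) (Nat.dvd_sub (l r hr) (l s hs))
        omega
      · have := Nat.le_of_dvd (by omega) (Nat.dvd_sub (l s hs) (l r hr))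
        omega
  have cp : ∀ x, ¬ u ∣ x → (u ^ i).Coprime x := fun x e => (hu.coprime_iff_not_dvd.2 e).pow_left i
  exact (cp _ b.2).dvd_of_dvd_mul_right ((cp _ b.1).dvd_of_dvd_mul_right (cG ▸ od u i hu a d))

theorem AK.tA_dvd (K : AK h n) : tA n ∣ h := by
  refine Finset.prod_dvd_of_isRelPrime (fun p hp q hq e => Nat.coprime_iff_isRelPrime.1
    (Nat.coprime_pow_primes _ _ (Finset.mem_filter.1 hp).2 (Finset.mem_filter.1 hq).2 e))
    fun p hp => ?_
  obtain ⟨h1, h2⟩ := Finset.mem_filter.1 hp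
  have h3 : n < 6 * p := by have := (Finset.mem_Ioc.1 h1).1; omega
  exact K.kept p _ h2 h3 (fact_big K.big h2 h3 ▸ Nat.ordProj_dvd _ p)

theorem AK.size_pos (K : AK h n) : 0 < h :=
  Nat.pos_of_mul_pos_right (Nat.pos_of_dvd_of_pos K.dvd n.factorial_pos)

theorem AK.size_aux (hn : 296 ≤ n) : n ^ 8 ≤ 2 ^ n := by
  have h1 : ∀ k, 6 ≤ k → 8 * (k + 1) ≤ 2 ^ k := fun k hk => by
    induction k, hk using Nat.le_induction with
    | base => norm_num
    | succ k _ ih => rw [pow_succ]; omega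
  have h2 := h1 (n / 8) (by omega)
  calc n ^ 8 ≤ (2 ^ (n / 8)) ^ 8 := Nat.pow_le_pow_left (by omega) 8
    _ ≤ 2 ^ n := by rw [← pow_mul]; exact Nat.pow_le_pow_right two_pos (by omega)

/-- No prime power is a large part of the order. -/
theorem AK.size (K : AK h n) {v i : ℕ} (hv : v.Prime) (h1 : v ^ i ∣ h)
    (h2 : h ^ 3 ≤ (v ^ i) ^ 8) : False := by
  have h3 := tA_big K.big
  have h4 : v ^ i ∣ n.factorial := h1.trans ((dvd_mul_right h 2).trans K.dvd)
  rw [mul_comm, pow_mul] at h3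
  by_cases e : n < 6 * v
  · have h5 := (hv.pow_dvd_iff_le_factorization n.factorial_ne_zero).1 h4
    rw [fact_big K.big hv e] at h5
    have h6 : n / v < 6 := (Nat.div_lt_iff_lt_mul hv.pos).2 e
    have h7 : v ^ i ≤ n ^ 5 := by
      rcases i with _ | i
      · exact Nat.pow_pos (by have := K.big; omega)
      have h8 : v ≤ n := (Nat.div_pos_iff.1 (by omega : 0 < n / v)).2
      exact (Nat.pow_le_pow_left h8 _).trans
        (Nat.pow_le_pow_right (hv.pos.trans_le h8) (by omega))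
    refine h3.not_ge (((Nat.pow_le_pow_left (Nat.le_of_dvd K.size_pos K.tA_dvd) 3).trans h2).trans
      ((Nat.pow_le_pow_left h7 8).trans ?_))
    rw [← pow_mul, mul_comm, pow_mul]
    exact Nat.pow_le_pow_left (AK.size_aux K.big) 5
  have h5 : (tA n).Coprime (v ^ i) := Nat.Coprime.prod_left fun p hp => by
    obtain ⟨a, b⟩ := Finset.mem_filter.1 hp
    have := (Finset.mem_Ioc.1 a).1
    exact Nat.coprime_pow_primes _ _ b hv (by omega)
  have h6 := (Nat.pow_le_pow_left (Nat.le_of_dvd K.size_pos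
    (h5.mul_dvd_of_dvd_of_dvd K.tA_dvd h1)) 3).trans h2
  rw [mul_pow, show (v ^ i) ^ 8 = (v ^ i) ^ 5 * (v ^ i) ^ 3 from pow_add _ 5 3] at h6
  exact h3.not_ge ((Nat.le_of_mul_le_mul_right h6 (Nat.pow_pos (Nat.pow_pos hv.pos))).trans
    (Nat.pow_le_pow_left (fact_pow_le hv h4) 5))

theorem AK.not_spor (K : AK h n) : h ∉ sporOrd := fun e => by
  have h1 : ∀ x ∈ sporOrd, x ^ 3 ≤ 2 ^ (5 * 296) := by decide +kernel
  exact (tA_big K.big).not_ge (((Nat.pow_le_pow_left (Nat.le_of_dvd K.size_pos K.tA_dvd) 3).trans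
    (h1 h e)).trans (Nat.pow_le_pow_right two_pos (Nat.mul_le_mul_left 5 K.big)))

omit [Finite G] in
/-- The cases of `OnList2`: `card_PL`, `sz_A`, `sz_U`, `sz_B`, `sz_D`, `sz_exc`, `sz_dvd` with
`AK.size` (see `ymain` in D/YMain for the pattern; `u` is a prime power by the field in `IsSU`,
`IsSp`, `IsOm`). For `PL 2 F` take three primes of `piA n` that do not divide `card F`
(`piA_card`, `three_L2`); `PL 0 F`, `PL 1 F` are trivial. -/
theorem AK.alt {H : Type} [Group H] [Finite H] (K : AK (Nat.card H) n)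
    (na : ∀ r ∈ piA n, ∀ s ∈ piA n, r ≠ s → ¬ Adj H r s) (l : OnList2 H) :
    ∃ m, Nonempty (H ≃* alternatingGroup (Fin m)) := by
  have hn := K.big
  have lie : ∀ {v g N : ℕ}, v.Prime → (v ^ g) ^ N ∣ Nat.card H →
      Nat.card H ^ 3 ≤ ((v ^ g) ^ N) ^ 8 → False := fun {v g N} hv a b =>
    K.size hv (pow_mul v g N ▸ a) (pow_mul v g N ▸ b)
  have u2 : ∀ {v g : ℕ}, v.Prime → 0 < g → 2 ≤ v ^ g := fun hv hg => Nat.one_lt_pow hg.ne' hv.one_lt
  have vg : ∀ (F : Type) [Field F] [Finite F], ∃ v g : ℕ, v.Prime ∧ 0 < g ∧ v ^ g = Nat.card F :=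
    fun F _ _ => have := Fintype.ofFinite F
      (isPrimePow_nat_iff _).1 (Nat.card_eq_fintype_card (α := F) ▸ FiniteField.isPrimePow_card F)
  have om : ∀ {m u : ℕ}, IsOm H m u → ∃ v g : ℕ, v.Prime ∧ 0 < g ∧ v ^ g = u :=
    fun ⟨F, _, _, _, e, _⟩ => e ▸ vg F
  have dv : ∀ r ∈ piA n, r ∣ Nat.card H := fun r hr =>
    have := mem_piA.1 hr
    pow_one r ▸ K.kept r 1 this.1 (by omega) ((pow_one r).symm ▸ this.1.dvd_factorial.2 this.2.2)
  rcases l with l | ⟨m, F, _, _, ⟨φ⟩⟩ | ⟨m, u, hm, a, b⟩ | ⟨m, u, hm, a, b⟩ | ⟨m, u, hm, a, b⟩ |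
    ⟨u, hu, a⟩ | a
  · exact l
  all_goals exfalso
  · obtain ⟨v, g, hv, hg, e⟩ := vg F
    obtain ⟨s, hs, h3⟩ := Finset.exists_subset_card_eq (s := (piA n).erase v) (n := 3)
      (by have := piA_card hn; have := Finset.pred_card_le_card_erase (s := piA n) (a := v); omega)
    obtain ⟨a, b, c, e1, e2, e3, rfl⟩ := Finset.card_eq_three.1 h3
    have k : ∀ x, x = a ∨ x = b ∨ x = c → x ≠ v ∧ x ∈ piA n := fun x hx =>
      Finset.mem_erase.1 (hs (by simpa using hx))
    have hm : 2 ≤ m := by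
      by_contra hm
      have := pl_small (F := F) (not_le.1 hm)
      have := φ.injective.subsingleton
      exact (mem_piA.1 (k a (.inl rfl)).2).1.ne_one
        (Nat.dvd_one.1 (Nat.card_unique (α := H) ▸ dv a (k a (.inl rfl)).2))
    have hh : Nat.card H * Nat.gcd m (v ^ g - 1) = ordSL m (v ^ g) := by
      rw [Nat.card_congr φ.toEquiv, e]
      exact card_PL (by omega)
    rcases hm.eq_or_lt with rfl | m3
    · refine three_L2 φ (a := a) (b := b) (c := c) (fun x hx => ?_)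
        ⟨e1, na a (k a (by simp)).2 b (k b (by simp)).2 e1⟩
        ⟨e2, na a (k a (by simp)).2 c (k c (by simp)).2 e2⟩
        ⟨e3, na b (k b (by simp)).2 c (k c (by simp)).2 e3⟩
      obtain ⟨k1, k2⟩ := k x hx
      have := mem_piA.1 k2
      exact ⟨this.1, by omega, dv x k2, fun d =>
        k1 ((Nat.prime_dvd_prime_iff_eq this.1 hv).1 (this.1.dvd_of_dvd_pow (e ▸ d)))⟩
    · exact lie hv (lt_A hv hg hm hh).pp (sz_A (u2 hv hg) m3 hh)
  · obtain ⟨v, g, hv, hg, rfl⟩ : ∃ v g : ℕ, v.Prime ∧ 0 < g ∧ v ^ g = u := by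
      obtain ⟨F, _, _, _, e, -⟩ := a
      obtain ⟨v, g, hv, hg, e'⟩ := vg F
      exact (isPrimePow_nat_iff u).1 ((isPrimePow_pow_iff two_ne_zero).1
        (e ▸ e' ▸ hv.prime.isPrimePow.pow hg.ne'))
    exact lie hv (lt_2A hv hg hm b).pp (sz_U (u2 hv hg) hm b)
  · obtain ⟨v, g, hv, hg, rfl⟩ : ∃ v g : ℕ, v.Prime ∧ 0 < g ∧ v ^ g = u :=
      a.elim (fun ⟨F, _, _, e, _⟩ => e ▸ vg F) om
    exact lie hv (lt_B hv hg hm b).pp (sz_B (u2 hv hg) hm b)
  · obtain ⟨v, g, hv, hg, rfl⟩ := om a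
    rcases b with b | b
    · exact lie hv (lt_D hv hg hm b).pp (sz_D (.inl rfl) (u2 hv hg) hm b)
    · exact lie hv (lt_2D hv hg hm (by simpa only [OrdD, sub_neg_eq_add] using b)).pp
        (sz_D (.inr rfl) (u2 hv hg) hm b)
  · obtain ⟨v, g, hv, hg, rfl⟩ := (isPrimePow_nat_iff u).1 hu
    exact (sz_exc (u2 hv hg) a).elim fun _ b => lie hv b.1 b.2.1
  · exact K.not_spor a

theorem exists_u (hn : 296 ≤ n) (h1 : m < n) (h2 : 5 * n < 6 * m) :
    ∃ u, u.Prime ∧ n - m < u ∧ u ∣ n.descFactorial (n - m) ∧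
      (u = 2 → 4 ∣ n.descFactorial (n - m)) := by
  by_cases e : n - m = 1
  · rw [e, Nat.descFactorial_one]
    rcases Nat.four_dvd_or_exists_odd_prime_and_dvd_of_two_lt (n := n) (by omega) with
      a | ⟨p, a, b, c⟩
    · exact ⟨2, Nat.prime_two, one_lt_two, Dvd.dvd.trans (by decide) a, fun _ => a⟩
    · exact ⟨p, a, a.one_lt, b, fun d => absurd (d ▸ c) (by decide)⟩
  · obtain ⟨u, a, b, c⟩ := sylv hn h1 h2
    exact ⟨u, a, b, c, fun d => by omega⟩

theorem AData.alt_eq (D : AData G n) (K : Subgroup G) [K.Normal] (H : Subgroup (G ⧸ K)) [H.Normal]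
    [IsSimpleGroup H] (hc : centralizer (H : Set (G ⧸ K)) = ⊥) (A : AK (Nat.card H) n)
    (hK : ∀ r ∈ piA n, ¬ r ∣ Nat.card K) (e : H ≃* alternatingGroup (Fin m)) : m = n := by
  have hn := A.big
  obtain ⟨p, hp, p', hp', hne⟩ := Finset.one_lt_card.1 (show 1 < (piA n).card by
    have := piA_card hn
    omega)
  have dH : ∀ r ∈ piA n, r ∣ Nat.card H := fun r hr => by
    obtain ⟨a, b, c⟩ := mem_piA.1 hr
    exact pow_one r ▸ A.kept r 1 a (by omega) (by rw [pow_one]; exact a.dvd_factorial.2 c)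
  have h1 : p ≤ m := (mem_piA.1 hp).1.dvd_factorial.1 ((dH p hp).trans (by
    rw [Nat.card_congr e.toEquiv, ← Nat.card_fin m, ← Nat.card_perm, Nat.card_fin]
    exact card_subgroup_dvd_card _))
  have h2 : 5 * n < 6 * m := by
    have := (mem_piA.1 hp).2.1
    omega
  have h3 : m ≤ n := by
    have := A.dvd
    rw [Nat.card_congr e.toEquiv, card_alt (by omega)] at this
    exact not_lt.1 fun a => ((Nat.factorial_lt (by omega)).2 a).not_ge
      (Nat.le_of_dvd n.factorial_pos this)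
  refine h3.eq_or_lt.resolve_right fun h4 => ?_
  obtain ⟨u, u1, u2, u3, u4⟩ := exists_u hn h4 h2
  obtain ⟨P, p1, ⟨t, p2, p3⟩, p4⟩ := rich' u hn h3 h2
  obtain ⟨g, hg⟩ := alt_end K H hc e ((mul_comm _ _).trans D.card) (by omega) h3 u1 u2 u3 u4 P p1 p4
    hne fun r hr => by
      have hr : r ∈ piA n := by rcases hr with rfl | rfl <;> assumption
      obtain ⟨a, b, -⟩ := mem_piA.1 hr
      exact ⟨a, by omega, ((dH r hr).trans (card_subgroup_dvd_card H)).trans
        (card_quotient_dvd_card K), hK r hr⟩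
  have h5 : u ∉ P := fun a => (p1 u a).2.2 rfl
  have := D.adj (insert u P) (Finset.forall_mem_insert _ _ _ |>.2 ⟨u1, fun r hr => (p1 r hr).1⟩)
    ⟨t, Finset.mem_insert_of_mem p2, p3⟩ (by rw [Finset.prod_insert h5]; exact adj_of_dvd hg)
  rw [Finset.sum_insert h5, p4] at this
  omega

theorem amain (hn : 296 ≤ n) (D : AData G n) :
    ∃ (K : Subgroup G) (_ : K.Normal) (H : Subgroup (G ⧸ K)), H.Normal ∧ IsSimpleGroup H ∧
      ¬ IsMulCommutative H ∧ centralizer (H : Set (G ⧸ K)) = ⊥ ∧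
      (OnList2 H → Nonempty (G ≃* alternatingGroup (Fin n))) := by
  obtain ⟨K, _, H, h1, h2, h3, h4, A, hK⟩ := D.sec hn
  refine ⟨K, inferInstance, H, h1, h2, h3, h4, fun l => ?_⟩
  have sj := QuotientGroup.mk'_surjective K
  obtain ⟨m, ⟨e⟩⟩ := A.alt (fun r hr s hs hne a => by
    obtain ⟨r1, r2, -⟩ := mem_piA.1 hr
    obtain ⟨s1, s2, -⟩ := mem_piA.1 hs
    exact (D.nad s1 r1 hne (by omega) (by omega)).2 (a.of_sub.of_surj sj)) l
  obtain rfl := D.alt_eq K H h4 A hK e
  have c1 : Nat.card H = Nat.card G := by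
    have := D.card
    rw [← card_alt (by omega), ← Nat.card_congr e.toEquiv] at this
    omega
  have c2 := H.card_le_card_group
  have c3 := Nat.card_le_card_of_surjective _ sj
  exact ⟨(MulEquiv.ofBijective _ ((Nat.bijective_iff_surjective_and_card _).2
    ⟨sj, by omega⟩)).trans ((MulEquiv.ofBijective H.subtype
      ((Nat.bijective_iff_injective_and_card _).2 ⟨H.subtype_injective, by omega⟩)).symm.trans e)⟩

end Pool.Agent.Lib.MP_7d41f7_al
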