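import Pool.Agent.Lib.MP_7d41f7_al.A.ADefs
import Pool.Agent.Lib.MP_7d41f7_al.A.ACh
import Pool.Agent.Lib.MP_7d41f7_al.A.AFn
import Pool.Agent.Lib.MP_7d41f7_al.Ball

/-! The arithmetic of the alternating groups. -/

set_option autoImplicit false

namespace Pool.Agent.Lib.MP_7d41f7_al

open Finset

variable {n m u : ℕ}

theorem win_all_pow {k : ℕ} (hk : 72 ≤ k) : (10 * (k + 1)) ^ 5 ≤ 2 ^ k := by
  induction k, hk using Nat.le_induction with
  | base => norm_num
  | succ k hk ih =>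
    have h : 10 * (10 * (k + 1 + 1)) ≤ 11 * (10 * (k + 1)) := by omega
    have h2 := Nat.pow_le_pow_left h 5
    rw [mul_pow 10 (10 * _), mul_pow 11] at h2
    rw [pow_succ 2]
    omega

theorem win_all_th (n c : ℕ) :
    Chebyshev.theta ((n : ℝ) / c) = Real.log (primorial (n / c)) := by
  rw [Chebyshev.theta_eq_log_primorial, Nat.floor_div_natCast, Nat.floor_natCast]

theorem win_all (hn : 296 ≤ n) : n ^ 5 * primorial (5 * n / 6) < primorial n := by
  rcases le_or_gt n 720 with h | h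
  · exact win_small hn h
  rcases le_or_gt n 300000 with h' | h'
  · have h1 := (prim_fin (n := n) (by omega) h').1
    have h2 := (prim_fin (n := 5 * n / 6) (by omega) (by omega)).2
    have h3 := win_all_pow (k := n / 10) (by omega)
    have h4 : n ^ 5 < 2 ^ (n / 10) := (Nat.pow_lt_pow_left (by omega) (by norm_num)).trans_le h3
    calc _ < 2 ^ (n / 10) * 2 ^ (29 * (5 * n / 6) / 20) :=
          Nat.mul_lt_mul_of_lt_of_le h4 h2 (by positivity)
      _ ≤ 2 ^ (33 * n / 25) := by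
          rw [← pow_add]; exact Nat.pow_le_pow_right (by norm_num) (by omega)
      _ ≤ _ := h1
  · have h1 := th_win (x := n) (by exact_mod_cast h'.le)
    have h2 := win_all_th (5 * n) 6
    have h3 := win_all_th n 1
    have p (k : ℕ) : (0 : ℝ) < primorial k := by exact_mod_cast primorial_pos k
    have p0 : (0 : ℝ) < n := by exact_mod_cast (by omega : 0 < n)
    simp only [Nat.cast_mul, Nat.cast_ofNat, Nat.cast_one, div_one, Nat.div_one] at h2 h3
    rw [h2, h3] at h1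
    have : (n : ℝ) ^ 5 * primorial (5 * n / 6) < primorial n := by
      rw [← Real.log_lt_log_iff (mul_pos (pow_pos p0 5) (p _)) (p _),
        Real.log_mul (pow_pos p0 5).ne' (p _).ne', Real.log_pow]
      push_cast; linarith
    exact_mod_cast this

theorem sum_all (hn : 296 ≤ n) :
    2 ^ (5 * n) * primorial (n / 6) ^ 15 < (primorial n * primorial (n / 2) * primorial (n / 3) *
      primorial (n / 4) * primorial (n / 5)) ^ 3 := by
  rcases le_or_gt n 3600 with h | h
  · exact sum_small hn h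
  rcases le_or_gt n 300000 with h' | h'
  · have h1 := (prim_fin (n := n) (by omega) h').1
    have h2 := (prim_fin (n := n / 2) (by omega) (by omega)).1
    have h3 := (prim_fin (n := n / 3) (by omega) (by omega)).1
    have h4 := (prim_fin (n := n / 4) (by omega) (by omega)).1
    have h5 := (prim_fin (n := n / 5) (by omega) (by omega)).1
    have h6 := (prim_fin (n := n / 6) (by omega) (by omega)).2
    calc _ ≤ 2 ^ (5 * n) * (2 ^ (29 * (n / 6) / 20)) ^ 15 := by gcongr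
      _ < (2 ^ (33 * n / 25) * 2 ^ (33 * (n / 2) / 25) * 2 ^ (33 * (n / 3) / 25) *
          2 ^ (33 * (n / 4) / 25) * 2 ^ (33 * (n / 5) / 25)) ^ 3 := by
          simp only [← pow_add, ← pow_mul]
          exact Nat.pow_lt_pow_right (by norm_num) (by omega)
      _ ≤ _ := by gcongr
  · have h1 := th_sum (x := n) (by exact_mod_cast h'.le)
    have a1 := win_all_th n 1
    have a2 := win_all_th n 2
    have a3 := win_all_th n 3
    have a4 := win_all_th n 4
    have a5 := win_all_th n 5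
    have a6 := win_all_th n 6
    have p (k : ℕ) : (0 : ℝ) < primorial k := by exact_mod_cast primorial_pos k
    have q (k : ℕ) := (p k).ne'
    simp only [Nat.cast_ofNat, Nat.cast_one, div_one, Nat.div_one] at a1 a2 a3 a4 a5 a6
    rw [a1, a2, a3, a4, a5, a6] at h1
    have : (2 : ℝ) ^ (5 * n) * (primorial (n / 6) : ℝ) ^ 15 < ((primorial n : ℝ) *
        primorial (n / 2) * primorial (n / 3) * primorial (n / 4) * primorial (n / 5)) ^ 3 := by
      have := p n; have := p (n / 2); have := p (n / 3); have := p (n / 4); have := p (n / 5)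
      have := p (n / 6)
      rw [← Real.log_lt_log_iff (by positivity) (by positivity),
        Real.log_mul (by positivity) (by positivity), Real.log_pow, Real.log_pow, Real.log_pow,
        Real.log_mul (by positivity) (q _), Real.log_mul (by positivity) (q _),
        Real.log_mul (by positivity) (q _), Real.log_mul (q _) (q _)]
      push_cast; linarith
    exact_mod_cast this

theorem prim_split {a b : ℕ} (h : a ≤ b) :
    primorial b = primorial a * ∏ p ∈ (Ioc a b).filter Nat.Prime, p := by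
  unfold primorial
  rw [← prod_union (by
    simp only [disjoint_left, mem_filter, mem_range, mem_Ioc]
    omega)]
  congr 1
  ext p
  simp only [mem_union, mem_filter, mem_range, mem_Ioc]
  by_cases k : p.Prime <;> simp only [k, and_true, and_false, or_self] <;> omega

theorem piA_big (hn : 296 ≤ n) : n ^ 5 < ∏ p ∈ piA n, p := by
  have := win_all hn
  rw [prim_split (a := 5 * n / 6) (b := n) (by omega), mul_comm] at this
  exact Nat.lt_of_mul_lt_mul_left this

theorem piA_card (hn : 296 ≤ n) : 6 ≤ (piA n).card := by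
  have := (piA_big hn).trans_le
    (prod_le_pow_card (piA n) (fun p => p) n fun p hp => (mem_piA.1 hp).2.2)
  exact (Nat.pow_lt_pow_iff_right (by omega)).1 this

/-- The statement at one value of the parameter. -/
abbrev twoPP (n : ℕ) : Prop :=
  60 ≤ n →
    ∃ p ∈ [53, 59, 61, 71, 73, 79, 83, 89, 97, 107, 113, 127, 131, 151, 157, 179, 181, 199, 211, 239, 251, 283],
    ∃ q ∈ [53, 59, 61, 71, 73, 79, 83, 89, 97, 107, 113, 127, 131, 151, 157, 179, 181, 199, 211, 239, 251, 283],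
      p < q ∧ 5 * n < 6 * p ∧ q ≤ n

theorem twoP0 : ∀ n < 130, twoPP n := by decide +kernel

theorem twoP1 : ∀ n < 180, 130 ≤ n → twoPP n := by decide +kernel

theorem twoP2 : ∀ n < 222, 180 ≤ n → twoPP n := by decide +kernel

theorem twoP3 : ∀ n < 260, 222 ≤ n → twoPP n := by decide +kernel

theorem twoP4 : ∀ n < 296, 260 ≤ n → twoPP n := by decide +kernel

theorem piA_two (hn : 60 ≤ n) : 2 ≤ (piA n).card := by
  by_cases h : 296 ≤ n
  · exact le_trans (by decide) (piA_card h)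
  have k : ∀ p ∈ [53, 59, 61, 71, 73, 79, 83, 89, 97, 107, 113, 127, 131, 151, 157, 179, 181, 199, 211, 239, 251, 283], Nat.Prime p := by
    simp only [List.mem_cons, List.not_mem_nil, or_false, forall_eq_or_imp, forall_eq]
    norm_num
  obtain ⟨p, a, q, b, c, d, e⟩ := 
    ball_app (ball_app (ball_app (ball_app twoP0 twoP1) twoP2) twoP3) twoP4 n (by omega) hn
  exact one_lt_card.2 ⟨p, mem_piA.2 ⟨k p a, d, by omega⟩, q, mem_piA.2 ⟨k q b, by omega, e⟩, c.ne⟩

theorem tA_big (hn : 296 ≤ n) : 2 ^ (5 * n) < tA n ^ 3 := by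
  have k : ∀ j, 0 < j → j ≤ 5 → primorial (n / j) = primorial (n / 6) *
      ∏ p ∈ (Ioc (n / 6) n).filter Nat.Prime, if j ≤ n / p then p else 1 := fun j a b => by
    rw [prim_split (a := n / 6) (Nat.div_le_div_left (by omega) a), ← prod_filter]
    congr 2
    ext p
    simp only [mem_filter, mem_Ioc]
    constructor
    · rintro ⟨⟨c, d⟩, e⟩
      refine ⟨⟨⟨c, d.trans (Nat.div_le_self _ _)⟩, e⟩, ?_⟩
      rw [Nat.le_div_iff_mul_le a] at d
      rwa [Nat.le_div_iff_mul_le e.pos, mul_comm]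
    · rintro ⟨⟨⟨c, -⟩, e⟩, d⟩
      refine ⟨⟨c, ?_⟩, e⟩
      rw [Nat.le_div_iff_mul_le e.pos] at d
      rwa [Nat.le_div_iff_mul_le a, mul_comm]
  have h := sum_all hn
  have h1 := k 1 (by decide) (by decide)
  rw [Nat.div_one] at h1
  rw [h1, k 2 (by decide) (by decide), k 3 (by decide) (by decide), k 4 (by decide) (by decide),
    k 5 (by decide) (by decide)] at h
  have e : tA n = (∏ p ∈ (Ioc (n / 6) n).filter Nat.Prime, if 1 ≤ n / p then p else 1) *
      (∏ p ∈ (Ioc (n / 6) n).filter Nat.Prime, if 2 ≤ n / p then p else 1) *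
      (∏ p ∈ (Ioc (n / 6) n).filter Nat.Prime, if 3 ≤ n / p then p else 1) *
      (∏ p ∈ (Ioc (n / 6) n).filter Nat.Prime, if 4 ≤ n / p then p else 1) *
      (∏ p ∈ (Ioc (n / 6) n).filter Nat.Prime, if 5 ≤ n / p then p else 1) := by
    simp only [← prod_mul_distrib]
    refine prod_congr rfl fun p hp => ?_
    simp only [mem_filter, mem_Ioc] at hp
    have : n / p < 6 := (Nat.div_lt_iff_lt_mul hp.2.pos).2 (by omega)
    generalize n / p = c at this
    interval_cases c <;> simp <;> ring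
  refine Nat.lt_of_mul_lt_mul_right (a := primorial (n / 6) ^ 15) (h.trans_eq ?_)
  rw [e]
  ring

theorem fact_big (hn : 296 ≤ n) (hu : u.Prime) (h : n < 6 * u) :
    n.factorial.factorization u = n / u := by
  rw [Nat.factorization_factorial hu (b := 2) (Nat.log_lt_of_lt_pow (by omega) (by nlinarith))]
  simp

theorem fact_pow_le {i : ℕ} (hu : u.Prime) (h : u ^ i ∣ n.factorial) : u ^ i ≤ 2 ^ n := by
  have a := ((hu.pow_dvd_iff_le_factorization n.factorial_ne_zero).1 h).trans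
    (Nat.factorization_factorial_le_div_pred hu n)
  have b : u ≤ 2 ^ (u - 1) := by
    have := Nat.lt_two_pow_self (n := u - 1)
    omega
  calc u ^ i ≤ (2 ^ (u - 1)) ^ (n / (u - 1)) :=
        (Nat.pow_le_pow_right hu.pos a).trans (Nat.pow_le_pow_left b _)
    _ ≤ _ := by
      rw [← pow_mul]
      exact Nat.pow_le_pow_right two_pos (Nat.mul_div_le _ _)

def rich_S : List ℕ :=
  [3, 5, 7, 11, 13, 17, 19, 23, 29, 31, 37, 41, 43, 47, 53, 59, 61, 67, 71, 73, 79, 83]

/-- two disjoint sets of odd primes for each sum from 28 to 87 -/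
def rich_T : List (List ℕ × List ℕ) :=
  [([5, 23], [11, 17]), ([29], [3, 7, 19]), ([7, 23], [11, 19]), ([31], [3, 5, 23]), ([3, 29],
  [13, 19]), ([3, 7, 23], [5, 11, 17]), ([3, 31], [5, 29]), ([3, 13, 19], [5, 7, 23]), ([5, 31],
  [7, 29]), ([37], [3, 5, 29]), ([7, 31], [3, 5, 11, 19]), ([3, 5, 31], [7, 13, 19]), ([3, 37],
  [11, 29]), ([41], [3, 7, 31]), ([5, 37], [11, 31]), ([43], [3, 11, 29]), ([3, 41], [7, 37]),
  ([3, 11, 31], [5, 17, 23]), ([3, 43], [5, 41]), ([47], [3, 7, 37]), ([5, 43], [7, 41]), ([3, 5,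
  41], [7, 11, 31]), ([3, 47], [7, 43]), ([3, 5, 43], [7, 13, 31]), ([5, 47], [11, 41]), ([53],
  [3, 7, 43]), ([7, 47], [11, 43]), ([3, 5, 47], [7, 11, 37]), ([3, 53], [13, 43]), ([3, 7, 47],
  [5, 11, 41]), ([5, 53], [11, 47]), ([59], [3, 13, 43]), ([7, 53], [13, 47]), ([61], [3, 5, 53]),
  ([3, 59], [19, 43]), ([3, 7, 53], [5, 11, 47]), ([3, 61], [5, 59]), ([3, 19, 43], [5, 7, 53]),
  ([5, 61], [7, 59]), ([67], [3, 5, 59]), ([7, 61], [31, 37]), ([3, 5, 61], [7, 19, 43]), ([3,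
  67], [11, 59]), ([71], [3, 7, 61]), ([5, 67], [11, 61]), ([73], [3, 11, 59]), ([3, 71], [7,
  67]), ([3, 5, 67], [7, 31, 37]), ([3, 73], [5, 71]), ([3, 7, 67], [5, 11, 61]), ([5, 73], [7,
  71]), ([79], [3, 5, 71]), ([7, 73], [13, 67]), ([3, 5, 73], [7, 13, 61]), ([3, 79], [11, 71]),
  ([83], [3, 7, 73]), ([5, 79], [11, 73]), ([3, 11, 71], [5, 7, 73]), ([3, 83], [7, 79]), ([3, 5,
  79], [7, 13, 67])]

theorem rich_chk : ∀ i < 60, (∀ l ∈ [(rich_T.getD i ([], [])).1, (rich_T.getD i ([], [])).2],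
    l.Nodup ∧ (∀ p ∈ l, p ∈ rich_S) ∧ l.sum = 28 + i) ∧
    ∀ p ∈ (rich_T.getD i ([], [])).1, p ∉ (rich_T.getD i ([], [])).2 := by
  decide +kernel

theorem rich_pr : ∀ p ∈ rich_S, p.Prime ∧ p ≠ 2 := by
  simp only [rich_S, List.mem_cons, List.not_mem_nil, or_false, forall_eq_or_imp, forall_eq]
  norm_num

theorem rich_small (u : ℕ) {R : ℕ} (hR : 28 ≤ R) (h : R < 88) :
    ∃ P : Finset ℕ, (∀ p ∈ P, p.Prime ∧ p ≠ 2 ∧ p ≠ u) ∧ ∑ p ∈ P, p = R := by
  obtain ⟨h1, h2⟩ := rich_chk (R - 28) (by omega)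
  obtain ⟨l, hl, hu⟩ : ∃ l ∈ [(rich_T.getD (R - 28) ([], [])).1, (rich_T.getD (R - 28) ([], [])).2],
      u ∉ l := by
    by_cases k : u ∈ (rich_T.getD (R - 28) ([], [])).1
    · exact ⟨_, List.mem_cons_of_mem _ List.mem_cons_self, h2 u k⟩
    · exact ⟨_, List.mem_cons_self, k⟩
  obtain ⟨a, b, c⟩ := h1 l hl
  refine ⟨l.toFinset, fun p hp => ?_, ?_⟩
  · have hp' := List.mem_toFinset.1 hp
    exact ⟨(rich_pr p (b p hp')).1, (rich_pr p (b p hp')).2, fun k => hu (k ▸ hp')⟩
  · rw [List.sum_toFinset _ a, List.map_id', c]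
    omega

theorem rich_ne (u : ℕ) (hn : 60 ≤ n) : ∃ t, t ≠ u ∧ t.Prime ∧ 5 * n < 6 * t ∧ t ≤ n := by
  obtain ⟨t, ht, k⟩ := exists_mem_ne (piA_two hn) u
  exact ⟨t, k, mem_piA.1 ht⟩

/-- add a prime that is larger than the sum -/
theorem rich_add {t R : ℕ} {P : Finset ℕ} (h : ∀ p ∈ P, p.Prime ∧ p ≠ 2 ∧ p ≠ u)
    (hs : ∑ p ∈ P, p = R - t) (ht : t.Prime ∧ t ≠ 2 ∧ t ≠ u) (h1 : t ≤ R) (h2 : R < 2 * t) :
    (∀ p ∈ insert t P, p.Prime ∧ p ≠ 2 ∧ p ≠ u) ∧ ∑ p ∈ insert t P, p = R := by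
  have k : t ∉ P := fun k => by
    have := single_le_sum (f := fun p : ℕ => p) (fun p _ => Nat.zero_le p) k
    omega
  refine ⟨forall_mem_insert _ _ _ |>.2 ⟨ht, h⟩, ?_⟩
  rw [sum_insert k, hs]
  omega

theorem rich (u : ℕ) {R : ℕ} (hR : 28 ≤ R) :
    ∃ P : Finset ℕ, (∀ p ∈ P, p.Prime ∧ p ≠ 2 ∧ p ≠ u) ∧ ∑ p ∈ P, p = R := by
  induction R using Nat.strong_induction_on with
  | _ R ih =>
    by_cases h : R < 88
    · exact rich_small u hR h
    obtain ⟨t, k, ht, a, b⟩ := rich_ne (n := R - 28) u (by omega)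
    obtain ⟨P, hP, hs⟩ := ih (R - t) (by omega) (by omega)
    exact ⟨_, rich_add hP hs ⟨ht, by omega, k⟩ (by omega) (by omega)⟩

theorem rich' (u : ℕ) (hn : 296 ≤ n) (h1 : m ≤ n) (h2 : 5 * n < 6 * m) :
    ∃ P : Finset ℕ, (∀ p ∈ P, p.Prime ∧ p ≠ 2 ∧ p ≠ u) ∧ (∃ r ∈ P, n + 6 ≤ 2 * r) ∧
      ∑ p ∈ P, p = m := by
  obtain ⟨r, k, hr, a, b⟩ := rich_ne (n := 2 * n / 3) u (by omega)
  obtain ⟨P, hP, hs⟩ := rich u (R := m - r) (by omega)
  obtain ⟨c, d⟩ := rich_add hP hs ⟨hr, by omega, k⟩ (by omega) (by omega)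
  exact ⟨_, c, ⟨r, mem_insert_self _ _, by omega⟩, d⟩

end Pool.Agent.Lib.MP_7d41f7_al
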